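import Pool.Agent.H26.GC.Zs

/-!
The polygons weighted by a fugacity: lower bounds and far polygons.
-/

set_option autoImplicit false

open MeasureTheory Set Filter Topology Metric
open scoped ENNReal Pointwise

namespace Pool.Agent.H26.GC

open Pool.Agent.T6.H44 Pool.Agent.T6.H44.PG
open Pool.Agent.TH795.EP2 (q)
open Pool.Agent.Y981.L2 H981 Pool.Agent.H26.WS Pool.Agent.H26.UN
open Pool.Agent.H26.WF (Kc V g rho pr RR)

theorem four_n {n : ℕ} (hn : 2 ≤ n) : 4 * (n : ℝ) ≤ Real.exp (5 * Real.log n ^ 2) := by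
  have hn2 : (2 : ℝ) ≤ n := by exact_mod_cast hn
  have hn0 : (0 : ℝ) < n := by linarith
  have h1 : 4 * (n : ℝ) ≤ (n : ℝ) ^ 3 := by
    have : (4 : ℝ) ≤ (n : ℝ) * n := by nlinarith
    have := mul_le_mul_of_nonneg_right this hn0.le
    linarith [show (n : ℝ) ^ 3 = (n : ℝ) * n * n by ring]
  have h2 : (n : ℝ) ^ 3 = Real.exp (3 * Real.log n) := by
    rw [← Real.exp_log hn0, ← Real.exp_nat_mul, Real.log_exp]
    norm_num
  rw [h2] at h1
  refine h1.trans (Real.exp_le_exp.2 ?_)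
  have h3 : Real.log 2 ≤ Real.log n := Real.log_le_log (by norm_num) hn2
  have h4 := Real.log_two_gt_d9
  have h5 : 0.6 * Real.log n ≤ Real.log n * Real.log n :=
    mul_le_mul_of_nonneg_right (by linarith) (by linarith)
  have e : Real.log n * Real.log n = Real.log n ^ 2 := by ring
  rw [e] at h5
  linarith

theorem ar1 {e : ℝ} (h0 : 0 ≤ e) (h1 : e ≤ 1 / 8) : (1 + e) * ((1 + 2 * e) * (1 + e)) ≤ 1 + 8 * e := by
  have h2 : e * e ≤ 1 / 8 * e := mul_le_mul_of_nonneg_right h1 h0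
  have h3 : e * (e * e) ≤ e * (1 / 8 * e) := mul_le_mul_of_nonneg_left h2 h0
  have e1 : (1 + e) * ((1 + 2 * e) * (1 + e)) = 1 + 4 * e + 5 * (e * e) + 2 * (e * (e * e)) := by ring
  rw [e1]
  linarith

/-- **lower bound** -/
theorem Z_low {ε : ℝ} (hε : 0 < ε) (hε1 : ε < 1) : ∃ C s₀ : ℝ, 0 < C ∧ 0 < s₀ ∧ ∀ z : ℝ, 0 < z →
    0 < -Real.log (z * mu) → ∀ s : ℝ, s₀ ≤ s →
      Real.exp (-(2 * (1 + ε) * (s * g (-Real.log (z * mu)))) -
        C * Lm (-Real.log (z * mu)) ^ 2) ≤ Zs z (Ar (s ^ 2)) := by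
  obtain ⟨e, he⟩ : ∃ e, e = ε / 8 := ⟨_, rfl⟩
  have he0 : 0 < e := by rw [he]; linarith
  have he1 : e ≤ 1 / 8 := by rw [he]; linarith
  obtain ⟨C1, n₀, hC1, hn₀, hlow⟩ := unif_low he0 (by linarith : e < 1)
  obtain ⟨K, hK, hln⟩ := Pool.Agent.T6.H53.AL.le_ln
  obtain ⟨C, hC, hkl⟩ := klog (K := C1 + K + 5) (by positivity) he0
  obtain ⟨C', hC', hup⟩ := Z_up (show (0 : ℝ) < 1 / 2 by norm_num) (by norm_num)
  refine ⟨C, n₀ + 1 / e, hC, by positivity, ?_⟩
  intro z hz hE s hs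
  have hnn : (2 : ℝ) ≤ n₀ := by exact_mod_cast hn₀
  have hie : 0 < 1 / e := by positivity
  have hs0 : 0 < s := by linarith
  have hsum := (hup z hz hE s hs0).1
  obtain ⟨E, hEd⟩ : ∃ E, E = -Real.log (z * mu) := ⟨_, rfl⟩
  have hzp := zpow hz
  rw [← hEd] at hE hzp ⊢
  have hg := g_pos hE
  have hmu := mu_pos
  obtain ⟨_, ⟨u, hu, rfl⟩, -, hlt⟩ := (WF.dual hE).exists_between
    (show 2 * g E < 2 * (1 + e) * g E by
      have := mul_pos he0 hg
      linarith)
  have hsu : 0 < √u := Real.sqrt_pos.2 hu.1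
  have hsu2 : √u ≤ 1 / 2 := (WF.sqrt_mem ⟨hu.1.le, hu.2⟩).2
  simp only at hlt
  rw [div_lt_iff₀ hsu] at hlt
  obtain ⟨y, hy⟩ : ∃ y, y = s / √u := ⟨_, rfl⟩
  have hyu : y * √u = s := by rw [hy]; field_simp
  have hy2 : 2 * s ≤ y := by
    rw [hy, le_div_iff₀ hsu]
    have := mul_le_mul_of_nonneg_left hsu2 hs0.le
    linarith
  have hy0 : 0 < y := by linarith
  obtain ⟨n, hn⟩ : ∃ n, n = ⌈(1 + e) * y⌉₊ := ⟨_, rfl⟩
  have hn1 : (1 + e) * y ≤ n := by rw [hn]; exact Nat.le_ceil _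
  have hn2 : (n : ℝ) < (1 + e) * y + 1 := by rw [hn]; exact Nat.ceil_lt_add_one (by positivity)
  have hey : 1 ≤ e * y := by
    have h1 : 1 / e ≤ y := by linarith
    rw [div_le_iff₀ he0] at h1
    linarith
  have hn3 : (n : ℝ) ≤ (1 + 2 * e) * y := by linarith
  have hyn : y ≤ n := by
    have := mul_pos he0 hy0
    linarith
  have hnn₀ : n₀ ≤ n := by
    have : (n₀ : ℝ) ≤ n := by linarith
    exact_mod_cast this
  have hn2' : 2 ≤ n := hn₀.trans hnn₀
  have hn0 : (0 : ℝ) < n := by linarith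
  obtain ⟨v, hv⟩ : ∃ v, v = s ^ 2 / (n : ℝ) ^ 2 := ⟨_, rfl⟩
  have hv0 : 0 < v := by rw [hv]; positivity
  have hvn : v * (n : ℝ) ^ 2 = s ^ 2 := by rw [hv]; field_simp
  have hvu : (1 + e) ^ 2 * v ≤ u := by
    have h1 : ((1 + e) * y) ^ 2 ≤ (n : ℝ) ^ 2 := pow_le_pow_left₀ (by positivity) hn1 2
    have h2 : ((1 + e) * y) ^ 2 * u = (1 + e) ^ 2 * s ^ 2 := by
      rw [← hyu]
      have : √u ^ 2 = u := Real.sq_sqrt hu.1.le
      calc ((1 + e) * y) ^ 2 * u = ((1 + e) * y) ^ 2 * √u ^ 2 := by rw [this]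
        _ = _ := by ring
    have h3 := mul_le_mul_of_nonneg_right h1 hu.1.le
    rw [h2, ← hvn] at h3
    have h4 : (1 + e) ^ 2 * v * (n : ℝ) ^ 2 ≤ u * (n : ℝ) ^ 2 := by linarith
    exact le_of_mul_le_mul_right h4 (by positivity)
  have hvu1 : (1 + e) * v < u := by
    have h1 : (1 + e) ^ 2 * v = (1 + e) * v + e * ((1 + e) * v) := by ring
    have h2 : 0 < e * ((1 + e) * v) := by positivity
    linarith
  have h1 := hlow n hnn₀ v hv0 (by linarith [hu.2])
  rw [hvn] at h1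
  have h2 : RR ((1 + e) * v) ≤ RR u :=
    WF.RR_strict.monotoneOn ⟨by positivity, hvu1.le.trans hu.2⟩ ⟨hu.1.le, hu.2⟩ hvu1.le
  have h3 := hln n hn2'
  obtain ⟨L, hL⟩ : ∃ L, L = Real.log (n : ℝ) ^ 2 := ⟨_, rfl⟩
  rw [← hL] at h1 h3
  have h4 := hkl E hE n
  rw [← hL] at h4
  have hfn := four_n hn2'
  rw [← hL] at hfn
  -- the term
  have hterm : Real.exp (-(n * (2 * E + RR u)) - (C1 + K + 5) * L) ≤
      z ^ (2 * n) * ((PQ (Ar (s ^ 2)) n).ncard : ℝ) / (4 * (n : ℝ)) := by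
    rw [card_Ar hn2', le_div_iff₀ (by positivity)]
    have a1 : Real.exp (-(n * RR u) - C1 * L) ≤ par n (s ^ 2) := by
      refine le_trans (Real.exp_le_exp.2 ?_) h1
      have := mul_le_mul_of_nonneg_left h2 hn0.le
      linarith
    have a2 : Real.exp (-(n * RR u) - C1 * L) * (mu ^ (2 * n) * Real.exp (-(K * L))) ≤
        par n (s ^ 2) * ln n := mul_le_mul a1 h3 (by positivity) ((Real.exp_pos _).le.trans a1)
    have a3 := mul_le_mul_of_nonneg_left a2 (pow_pos hz (2 * n)).le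
    refine le_trans ?_ a3
    have a4 : z ^ (2 * n) * (Real.exp (-(n * RR u) - C1 * L) * (mu ^ (2 * n) * Real.exp (-(K * L)))) =
        z ^ (2 * n) * mu ^ (2 * n) * (Real.exp (-(n * RR u) - C1 * L) * Real.exp (-(K * L))) := by
      ring
    rw [a4, hzp, ← Real.exp_add, ← Real.exp_add]
    calc Real.exp (-(n * (2 * E + RR u)) - (C1 + K + 5) * L) * (4 * n)
        ≤ Real.exp (-(n * (2 * E + RR u)) - (C1 + K + 5) * L) * Real.exp (5 * L) :=
          mul_le_mul_of_nonneg_left hfn (Real.exp_pos _).le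
      _ = _ := by
          rw [← Real.exp_add]
          congr 1
          ring
  have hle : tm z (Ar (s ^ 2)) (n - 2) ≤ Zs z (Ar (s ^ 2)) :=
    hsum.le_tsum (n - 2) (fun j _ => tm_nonneg hz _ j)
  have htm : tm z (Ar (s ^ 2)) (n - 2) =
      z ^ (2 * n) * ((PQ (Ar (s ^ 2)) n).ncard : ℝ) / (4 * (n : ℝ)) := by
    obtain ⟨k, rfl⟩ : ∃ k, n = k + 2 := ⟨n - 2, by omega⟩
    unfold tm
    rw [Nat.add_sub_cancel]
  rw [htm] at hle
  refine le_trans (Real.exp_le_exp.2 ?_) (hterm.trans hle)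
  -- the exponents
  obtain ⟨D, hD⟩ : ∃ D, D = 2 * E + RR u := ⟨_, rfl⟩
  have hRR : 0 ≤ RR u := by
    rw [WF.RR_eq hu.1.le]
    exact WF.rho_nonneg hsu.le hsu2
  have hD0 : 0 ≤ D := by rw [hD]; linarith
  rw [← hD]
  have b1 : (C1 + K + 5) * L ≤ e * (n * D) + C * Lm E ^ 2 := by
    have : e * (n * E) ≤ e * (n * D) := by
      apply mul_le_mul_of_nonneg_left _ he0.le
      apply mul_le_mul_of_nonneg_left _ hn0.le
      rw [hD]
      linarith
    linarith
  have b2 : n * D ≤ (1 + 2 * e) * (2 * (1 + e) * (s * g E)) := by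
    have c1 : D ≤ 2 * (1 + e) * g E * √u := by rw [hD]; linarith
    have c2 : n * D ≤ (1 + 2 * e) * y * (2 * (1 + e) * g E * √u) :=
      mul_le_mul hn3 c1 hD0 (by positivity)
    have c3 : (1 + 2 * e) * y * (2 * (1 + e) * g E * √u) =
        (1 + 2 * e) * (2 * (1 + e) * (y * √u * g E)) := by ring
    rw [c3, hyu] at c2
    exact c2
  have b3 : (1 + e) * (n * D) ≤ 2 * (1 + ε) * (s * g E) := by
    have c1 := mul_le_mul_of_nonneg_left b2 (show 0 ≤ 1 + e by linarith)
    have c2 : (1 + e) * ((1 + 2 * e) * (2 * (1 + e) * (s * g E))) =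
        2 * ((1 + e) * ((1 + 2 * e) * (1 + e))) * (s * g E) := by ring
    rw [c2] at c1
    have c3 := ar1 he0.le he1
    have c4 : (1 + 8 * e) = 1 + ε := by rw [he]; ring
    rw [c4] at c3
    have c5 := mul_le_mul_of_nonneg_right c3 (show 0 ≤ 2 * (s * g E) by positivity)
    linarith
  linarith

theorem exp_big {c : ℝ} (hc : 0 < c) {X : ℝ} (hX : 72 / c ^ 4 ≤ X) :
    3 * X ≤ Real.exp (c * √X) := by
  have hX0 : 0 ≤ X := le_trans (by positivity) hX
  have h1 : (c * √X) ^ 4 / 24 ≤ Real.exp (c * √X) := by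
    have := Real.pow_div_factorial_le_exp (x := c * √X) (by positivity) 4
    norm_num [Nat.factorial] at this
    exact this
  refine le_trans ?_ h1
  have h2 : (c * √X) ^ 4 = c ^ 4 * X * X := by
    have : √X ^ 4 = X * X := by
      have h3 : √X ^ 2 = X := Real.sq_sqrt hX0
      calc √X ^ 4 = √X ^ 2 * √X ^ 2 := by ring
        _ = _ := by rw [h3]
    rw [mul_pow, this]
    ring
  rw [h2]
  rw [div_le_iff₀ (by positivity)] at hX
  have := mul_le_mul_of_nonneg_right hX hX0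
  linarith

/-- the polygons of large area which are far from the Wulff shape -/
def Fr (s E δ : ℝ) : ∀ n : ℕ, (ZMod (2 * n) → ℤ × ℤ) → Prop :=
  fun n f => s ^ 2 ≤ (area (2 * n) f : ℝ) ∧ FarU n s E δ f

/-- **far polygons** -/
theorem Z_far {δ : ℝ} (hδ : 0 < δ) : ∃ η C : ℝ, 0 < η ∧ η ≤ 1 ∧ 0 < C ∧ ∀ z : ℝ, 0 < z →
    0 < -Real.log (z * mu) → ∀ s : ℝ, C ≤ s →
      C * Lm (-Real.log (z * mu)) ^ 2 ≤ s * g (-Real.log (z * mu)) →
      Zs z (Fr s (-Real.log (z * mu)) δ) ≤ Real.exp (C * Lm (-Real.log (z * mu)) ^ 2 -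
        (2 + η) * (s * g (-Real.log (z * mu)))) := by
  obtain ⟨η, C1, hη, hη1, hC1, hbad⟩ := bad_sk (show 0 < δ / 2 by linarith)
  obtain ⟨K, hK, hln⟩ := Y981.L2.ln_le
  obtain ⟨e, he⟩ : ∃ e, e = min (η / 8) (δ / 4) := ⟨_, rfl⟩
  have he0 : 0 < e := by rw [he]; exact lt_min (by linarith) (by linarith)
  have he1 : e ≤ η / 8 := by rw [he]; exact min_le_left _ _
  have he2 : e ≤ δ / 4 := by rw [he]; exact min_le_right _ _
  obtain ⟨C2, hC2, hZ⟩ := Zs_le (K := C1 + K) (by positivity) he0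
  obtain ⟨c, hc⟩ : ∃ c, c = 1 / (2 * √(2 * C1)) := ⟨_, rfl⟩
  have hr : 0 < √(2 * C1) := Real.sqrt_pos.2 (by positivity)
  have hc0 : 0 < c := by rw [hc]; positivity
  obtain ⟨C, hC⟩ : ∃ C, C = C1 + C2 + 8 * C1 + 160 / c ^ 4 := ⟨_, rfl⟩
  have h160 : 0 < 160 / c ^ 4 := by positivity
  refine ⟨η / 2, C, by linarith, by linarith, by rw [hC]; positivity, ?_⟩
  intro z hz hE s hs hX
  obtain ⟨E, hEd⟩ : ∃ E, E = -Real.log (z * mu) := ⟨_, rfl⟩
  have h1 := (hZ z hz hE ((2 + η / 2) * (s * g (-Real.log (z * mu))))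
    (Fr s (-Real.log (z * mu)) δ))
  rw [← hEd] at hE h1 hX ⊢
  have hg := g_pos hE
  have hmu := mu_pos
  have hL := Lm_sq hE
  have hLp := Lm_pos hE
  have hE' : 0 < (1 - e) * E := mul_pos (by linarith) hE
  have hg' := g_pos hE'
  have hgd := g_down hE he0.le (by linarith : e < 1)
  have hsC1 : C1 ≤ s := by rw [hC] at hs; linarith
  have hs0 : 0 < s := by linarith
  obtain ⟨X, hXd⟩ : ∃ X, X = s * g E := ⟨_, rfl⟩
  have hX0 : 0 < X := by rw [hXd]; positivity
  have hsg : (1 - e) * X ≤ s * g ((1 - e) * E) := by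
    have := mul_le_mul_of_nonneg_left hgd hs0.le
    rw [hXd]
    linarith
  rw [← hXd] at h1 hX ⊢
  have hXX : 72 / c ^ 4 ≤ X := by
    have a1 : 160 / c ^ 4 * Lm E ^ 2 ≤ C * Lm E ^ 2 := by
      apply mul_le_mul_of_nonneg_right _ (sq_nonneg _)
      rw [hC]
      linarith
    have a2 : 160 / c ^ 4 * 0.47 ≤ 160 / c ^ 4 * Lm E ^ 2 := mul_le_mul_of_nonneg_left hL h160.le
    have a3 : 72 / c ^ 4 = 160 / c ^ 4 * 0.45 := by ring
    have a4 : 160 / c ^ 4 * 0.45 ≤ 160 / c ^ 4 * 0.47 :=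
      mul_le_mul_of_nonneg_left (by norm_num) h160.le
    linarith
  have hX8 : 8 * C1 * Lm E ^ 2 ≤ X := by
    have a1 : 8 * C1 * Lm E ^ 2 ≤ C * Lm E ^ 2 := by
      apply mul_le_mul_of_nonneg_right _ (sq_nonneg _)
      rw [hC]
      linarith
    linarith
  have h2 := (h1 (by
    intro n hn
    obtain ⟨k1, k2⟩ := hln n hn
    have hn1 : 1 ≤ n := by omega
    have hn0 : (0 : ℝ) < n := by exact_mod_cast hn1
    have hlogn : 0 < Real.log n := Real.log_pos (by
      have : (2 : ℝ) ≤ n := by exact_mod_cast hn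
      linarith)
    have hfin : (PQ (Fr s E δ) n).Finite := (loops_finite hn1).subset fun f hf => hf.1
    have hK0 : 0 ≤ K * Real.log n ^ 2 := by positivity
    have hC10 : 0 ≤ C1 * Real.log n ^ 2 := by positivity
    rcases le_or_gt (C1 * Real.log n ^ 2) (s * g ((1 - e) * E)) with h | h
    · have h3 := hbad ((1 - e) * E) hE' n hn s hsC1 h
      have hfin' : {f : ZMod (2 * n) → ℤ × ℤ | IsLoop (2 * n) f ∧ s ^ 2 ≤ (area (2 * n) f : ℝ) ∧
          FarU n s ((1 - e) * E) (δ / 2) f}.Finite := (loops_finite hn1).subset fun f hf => hf.1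
      have h4 : (PQ (Fr s E δ) n).ncard ≤ {f : ZMod (2 * n) → ℤ × ℤ | IsLoop (2 * n) f ∧
          s ^ 2 ≤ (area (2 * n) f : ℝ) ∧ FarU n s ((1 - e) * E) (δ / 2) f}.ncard := by
        apply Set.ncard_le_ncard _ hfin'
        rintro f ⟨hf1, hf2, hf3⟩
        refine ⟨hf1, hf2, ?_⟩
        exact far_trans hn1 hE hE' (lt_of_le_of_lt (UE_shrink hE he0.le (by linarith : e < 1))
          (show e < δ / 2 by linarith)) (by linarith) hf3
      have h5 : ((PQ (Fr s E δ) n).ncard : ℝ) ≤ _ := (by exact_mod_cast h4 :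
        ((PQ (Fr s E δ) n).ncard : ℝ) ≤ ({f : ZMod (2 * n) → ℤ × ℤ | IsLoop (2 * n) f ∧
          s ^ 2 ≤ (area (2 * n) f : ℝ) ∧ FarU n s ((1 - e) * E) (δ / 2) f}.ncard : ℝ)).trans h3
      refine h5.trans ?_
      apply mul_le_mul_of_nonneg_right _ (pow_pos hmu _).le
      apply Real.exp_le_exp.2
      have h6 : (2 + η / 2) * X ≤ (2 + η) * (s * g ((1 - e) * E)) := by
        have a1 := mul_le_mul_of_nonneg_left hsg (show 0 ≤ 2 + η by linarith)
        have a2 : (2 + η) * ((1 - e) * X) = (2 + η) * X - 2 * (e * X) - η * (e * X) := by ring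
        have a3 : e * X ≤ η / 8 * X := mul_le_mul_of_nonneg_right he1 hX0.le
        have a4 : η * (e * X) ≤ 1 * (e * X) := mul_le_mul_of_nonneg_right hη1 (by positivity)
        rw [a2] at a1
        have a5 : 0 ≤ η * X := by positivity
        linarith
      have e5 : (C1 + K) * Real.log n ^ 2 = C1 * Real.log n ^ 2 + K * Real.log n ^ 2 := by ring
      rw [e5]
      linarith
    · -- large perimeters
      have h3 : ((PQ (Fr s E δ) n).ncard : ℝ) ≤ ln n := by
        have h4 : (PQ (Fr s E δ) n).ncard ≤ {f : ZMod (2 * n) → ℤ × ℤ | IsLoop (2 * n) f}.ncard :=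
          Set.ncard_le_ncard (fun f hf => hf.1) (loops_finite hn1)
        exact_mod_cast h4
      refine (h3.trans k2).trans ?_
      unfold q
      rw [mul_comm]
      apply mul_le_mul_of_nonneg_right _ (pow_pos hmu _).le
      apply Real.exp_le_exp.2
      have hnE : 3 * X ≤ n * E := by
        have a1 : X / 2 ≤ C1 * Real.log n ^ 2 := by
          have : (1 - e) * X ≥ 1 / 2 * X := mul_le_mul_of_nonneg_right (by linarith) hX0.le
          linarith
        have a2 : √X ≤ √(2 * C1) * Real.log n := by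
          rw [← Real.sqrt_sq hlogn.le, ← Real.sqrt_mul (by positivity)]
          apply Real.sqrt_le_sqrt
          linarith
        have a3 : 2 * (c * √X) ≤ Real.log n := by
          rw [hc]
          have : 2 * (1 / (2 * √(2 * C1)) * √X) = √X / √(2 * C1) := by
            field_simp
          rw [this, div_le_iff₀ hr]
          linarith
        have a4 : 2 * √(2 * C1) * Lm E ≤ √X := by
          apply Real.le_sqrt_of_sq_le
          have : (2 * √(2 * C1) * Lm E) ^ 2 = 8 * C1 * Lm E ^ 2 := by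
            rw [mul_pow, mul_pow, Real.sq_sqrt (by positivity)]
            ring
          rw [this]
          exact hX8
        have a5 : Lm E ≤ c * √X := by
          rw [hc]
          have : 1 / (2 * √(2 * C1)) * √X = √X / (2 * √(2 * C1)) := by ring
          rw [this, le_div_iff₀ (by positivity)]
          linarith
        have a6 : Real.exp (-Lm E) ≤ E := by
          unfold Lm
          rw [Real.exp_neg, Real.exp_log (by positivity)]
          rw [inv_le_comm₀ (by positivity) hE]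
          have : E⁻¹ = 1 / E := (one_div E).symm
          rw [this]
          linarith
        have a7 : Real.exp (c * √X) ≤ n * E := by
          have b1 : Real.exp (2 * (c * √X)) ≤ n := by
            rw [← Real.le_log_iff_exp_le hn0]
            exact a3
          have b2 : Real.exp (-(c * √X)) ≤ E := (Real.exp_le_exp.2 (by linarith)).trans a6
          have b3 := mul_le_mul b1 b2 (Real.exp_pos _).le hn0.le
          rw [← Real.exp_add] at b3
          refine le_trans (le_of_eq ?_) b3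
          congr 1
          ring
        exact (exp_big hc0 hXX).trans a7
      have h6 : 2 * (n * ((1 - e) * E)) ≥ n * E := by
        have : (1 - e) * (n * E) ≥ 1 / 2 * (n * E) :=
          mul_le_mul_of_nonneg_right (by linarith) (by positivity)
        linarith
      have h7 : (2 + η / 2) * X ≤ 3 * X := mul_le_mul_of_nonneg_right (by linarith) hX0.le
      have e5 : (C1 + K) * Real.log n ^ 2 = C1 * Real.log n ^ 2 + K * Real.log n ^ 2 := by ring
      rw [e5]
      linarith)).2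
  refine h2.trans (Real.exp_le_exp.2 ?_)
  have : C2 * Lm E ^ 2 ≤ C * Lm E ^ 2 := by
    apply mul_le_mul_of_nonneg_right _ (sq_nonneg _)
    rw [hC]
    linarith
  linarith

end Pool.Agent.H26.GC
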