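import Pool.Agent.H26.GC.Bds

/-!
The polygons weighted by a fugacity: the conditional law of the shape.
-/

set_option autoImplicit false

open MeasureTheory Set Filter Topology Metric
open scoped ENNReal Pointwise

namespace Pool.Agent.H26.GC

open Pool.Agent.T6.H44 Pool.Agent.T6.H44.PG
open Pool.Agent.Y981.L2 H981 Pool.Agent.H26.WS Pool.Agent.H26.UN
open Pool.Agent.H26.WF (Kc V g rho pr RR)

/-- the polygons with area in `S` -/
def In (S : Set ℝ) : ∀ n : ℕ, (ZMod (2 * n) → ℤ × ℤ) → Prop := fun n f => (area (2 * n) f : ℝ) ∈ S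

theorem tm_mono {z : ℝ} (hz : 0 < z) {Q Q' : ∀ n : ℕ, (ZMod (2 * n) → ℤ × ℤ) → Prop}
    (h : ∀ n, 2 ≤ n → ∀ f, IsLoop (2 * n) f → Q n f → Q' n f) (k : ℕ) : tm z Q k ≤ tm z Q' k := by
  have h1 : (PQ Q (k + 2)).ncard ≤ (PQ Q' (k + 2)).ncard := by
    apply Set.ncard_le_ncard
    · rintro f ⟨hf, hq⟩
      exact ⟨hf, h _ (by omega) f hf hq⟩
    · exact (loops_finite (by omega : 1 ≤ k + 2)).subset fun f hf => hf.1
  unfold tm
  have h2 : ((PQ Q (k + 2)).ncard : ℝ) ≤ (PQ Q' (k + 2)).ncard := by exact_mod_cast h1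
  gcongr

theorem tm_split {z : ℝ} (hz : 0 < z) {Q Q1 Q2 : ∀ n : ℕ, (ZMod (2 * n) → ℤ × ℤ) → Prop}
    (h : ∀ n, 2 ≤ n → ∀ f, IsLoop (2 * n) f → Q n f → Q1 n f ∨ Q2 n f) (k : ℕ) :
    tm z Q k ≤ tm z Q1 k + tm z Q2 k := by
  have hfin : ∀ Q', (PQ Q' (k + 2)).Finite := fun Q' =>
    (loops_finite (by omega : 1 ≤ k + 2)).subset fun f hf => hf.1
  have h1 : (PQ Q (k + 2)).ncard ≤ (PQ Q1 (k + 2)).ncard + (PQ Q2 (k + 2)).ncard := by
    refine (Set.ncard_le_ncard (t := PQ Q1 (k + 2) ∪ PQ Q2 (k + 2)) ?_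
      ((hfin _).union (hfin _))).trans (Set.ncard_union_le _ _)
    rintro f ⟨hf, hq⟩
    rcases h _ (by omega) f hf hq with h' | h'
    · exact Or.inl ⟨hf, h'⟩
    · exact Or.inr ⟨hf, h'⟩
  have h2 : ((PQ Q (k + 2)).ncard : ℝ) ≤ (PQ Q1 (k + 2)).ncard + (PQ Q2 (k + 2)).ncard := by
    exact_mod_cast h1
  unfold tm
  rw [← add_div, ← mul_add]
  gcongr

theorem sum_of_le {z : ℝ} (hz : 0 < z) {Q Q' : ∀ n : ℕ, (ZMod (2 * n) → ℤ × ℤ) → Prop}
    (h : ∀ n, 2 ≤ n → ∀ f, IsLoop (2 * n) f → Q n f → Q' n f) (hs : Summable (tm z Q')) :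
    Summable (tm z Q) ∧ Zs z Q ≤ Zs z Q' := by
  have h1 : Summable (tm z Q) := Summable.of_nonneg_of_le (tm_nonneg hz Q) (tm_mono hz h) hs
  exact ⟨h1, h1.tsum_le_tsum (tm_mono hz h) hs⟩

theorem ar2 {e k : ℝ} (h0 : 0 ≤ e) (h1 : e ≤ k / 16) (h2 : k ≤ 1) :
    (1 + e) * (1 + e) + k / 2 ≤ (1 - e) * (1 + k) := by
  have a1 : e * e ≤ 1 * e := mul_le_mul_of_nonneg_right (by linarith) h0
  have a2 : e * k ≤ e * 1 := mul_le_mul_of_nonneg_left h2 h0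
  have e1 : (1 + e) * (1 + e) + k / 2 = 1 + 2 * e + e * e + k / 2 := by ring
  have e2 : (1 - e) * (1 + k) = 1 + k - e - e * k := by ring
  rw [e1, e2]
  linarith

/-- **windows of areas** -/
theorem Z_win {κ ε : ℝ} (hκ : 0 < κ) (hε : 0 < ε) (hε1 : ε < 1) : ∃ C s₀ : ℝ, 0 < C ∧ 0 < s₀ ∧
    ∀ z : ℝ, 0 < z → 0 < -Real.log (z * mu) → ∀ s : ℝ, s₀ ≤ s →
      C * Lm (-Real.log (z * mu)) ^ 2 ≤ s * g (-Real.log (z * mu)) →
      ∀ S : Set ℝ, Ioo (s ^ 2) ((1 + κ) * s ^ 2) ⊆ S → S ⊆ Ici (s ^ 2) →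
      Summable (tm z (In S)) ∧ Real.exp (-(2 * (1 + ε) * (s * g (-Real.log (z * mu)))) -
        C * Lm (-Real.log (z * mu)) ^ 2) ≤ Zs z (In S) := by
  obtain ⟨k, hk⟩ : ∃ k, k = min (κ / 3) 1 := ⟨_, rfl⟩
  have hk0 : 0 < k := by rw [hk]; exact lt_min (by linarith) one_pos
  have hk1 : k ≤ κ / 3 := by rw [hk]; exact min_le_left _ _
  have hk2 : k ≤ 1 := by rw [hk]; exact min_le_right _ _
  obtain ⟨e, he⟩ : ∃ e, e = min (k / 16) (ε / 8) := ⟨_, rfl⟩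
  have he0 : 0 < e := by rw [he]; exact lt_min (by linarith) (by linarith)
  have he1 : e ≤ k / 16 := by rw [he]; exact min_le_left _ _
  have he2 : e ≤ ε / 8 := by rw [he]; exact min_le_right _ _
  obtain ⟨C1, s₀, hC1, hs₀, hlow⟩ := Z_low he0 (by linarith)
  obtain ⟨C2, hC2, hup⟩ := Z_up he0 (by linarith)
  obtain ⟨C, hC⟩ : ∃ C, C = C1 + 2 + (C1 + C2 + 2) / k := ⟨_, rfl⟩
  have hCk : 0 < (C1 + C2 + 2) / k := by positivity
  refine ⟨C, s₀, by rw [hC]; positivity, hs₀, ?_⟩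
  intro z hz hE s hs hX S hS1 hS2
  have hs0 : 0 < s := by linarith
  have hs1 : s₀ ≤ (1 + e) * s := by
    have := mul_pos he0 hs0
    linarith
  have h1 := hlow z hz hE ((1 + e) * s) hs1
  obtain ⟨u1, u2⟩ := hup z hz hE ((1 + k) * s) (by positivity)
  obtain ⟨v1, v2⟩ := hup z hz hE ((1 + e) * s) (by positivity)
  obtain ⟨w1, w2⟩ := hup z hz hE s hs0
  obtain ⟨E, hEd⟩ : ∃ E, E = -Real.log (z * mu) := ⟨_, rfl⟩
  rw [← hEd] at hE h1 u2 hX ⊢
  have hg := g_pos hE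
  have hL := Lm_sq hE
  obtain ⟨X, hXd⟩ : ∃ X, X = s * g E := ⟨_, rfl⟩
  have hX0 : 0 < X := by rw [hXd]; positivity
  have r1 : (1 + e) * s * g E = (1 + e) * X := by rw [hXd]; ring
  have r2 : (1 + k) * s * g E = (1 + k) * X := by rw [hXd]; ring
  rw [r1] at h1
  rw [r2] at u2
  rw [← hXd] at hX ⊢
  obtain ⟨L, hLd⟩ : ∃ L, L = Lm E ^ 2 := ⟨_, rfl⟩
  rw [← hLd] at h1 u2 hX hL ⊢
  have hss : 0 < s ^ 2 := by positivity
  obtain ⟨t1, -⟩ := sum_of_le hz (Q := In S) (Q' := Ar (s ^ 2)) (fun n hn f hf hq => hS2 hq) w1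
  refine ⟨t1, ?_⟩
  -- splitting
  have hsplit : Zs z (Ar (((1 + e) * s) ^ 2)) ≤ Zs z (In S) + Zs z (Ar (((1 + k) * s) ^ 2)) := by
    have h3 : ∀ j, tm z (Ar (((1 + e) * s) ^ 2)) j ≤
        tm z (In S) j + tm z (Ar (((1 + k) * s) ^ 2)) j := by
      apply tm_split hz
      intro n hn f hf hq
      have hq' : ((1 + e) * s) ^ 2 ≤ (area (2 * n) f : ℝ) := hq
      rcases le_or_gt (((1 + k) * s) ^ 2) (area (2 * n) f : ℝ) with h | h
      · exact Or.inr h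
      · left
        apply hS1
        refine ⟨lt_of_lt_of_le ?_ hq', h.trans_le ?_⟩
        · have e1 : ((1 + e) * s) ^ 2 = s ^ 2 + (2 * e + e * e) * s ^ 2 := by ring
          rw [e1]
          have : 0 < (2 * e + e * e) * s ^ 2 := by positivity
          linarith
        · rw [mul_pow]
          apply mul_le_mul_of_nonneg_right _ hss.le
          have : k * k ≤ 1 * k := mul_le_mul_of_nonneg_right hk2 hk0.le
          have e1 : (1 + k) ^ 2 = 1 + 2 * k + k * k := by ring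
          rw [e1]
          linarith
    unfold Zs
    rw [← t1.tsum_add u1]
    exact v1.tsum_le_tsum h3 (t1.add u1)
  have hbig : (C1 + C2 + 2) * L ≤ k * X := by
    have a1 : (C1 + C2 + 2) / k * L ≤ C * L := by
      apply mul_le_mul_of_nonneg_right _ (by linarith)
      rw [hC]
      linarith
    have a2 := mul_le_mul_of_nonneg_left (a1.trans hX) hk0.le
    have a3 : k * ((C1 + C2 + 2) / k * L) = (C1 + C2 + 2) * L := by field_simp
    rw [a3] at a2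
    exact a2
  obtain ⟨Y, hY⟩ : ∃ Y, Y = Real.exp (-(2 * (1 + e) * ((1 + e) * X)) - C1 * L) := ⟨_, rfl⟩
  have hY0 : 0 < Y := by rw [hY]; exact Real.exp_pos _
  rw [← hY] at h1
  have hhalf := half_exp (L := L) (by linarith)
  have h4 : Zs z (Ar (((1 + k) * s) ^ 2)) ≤ 1 / 2 * Y := by
    refine u2.trans ?_
    refine le_trans ?_ (mul_le_mul_of_nonneg_right hhalf hY0.le)
    rw [hY, ← Real.exp_add]
    apply Real.exp_le_exp.2
    have a1 := mul_le_mul_of_nonneg_right (ar2 he0.le he1 hk2) hX0.le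
    have e1 : ((1 + e) * (1 + e) + k / 2) * X = (1 + e) * ((1 + e) * X) + k * X / 2 := by ring
    have e2 : (1 - e) * (1 + k) * X = (1 - e) * ((1 + k) * X) := by ring
    rw [e1, e2] at a1
    linarith
  have h5 : 1 / 2 * Y ≤ Zs z (In S) := by linarith
  refine le_trans ?_ (le_trans (mul_le_mul_of_nonneg_right hhalf hY0.le) h5)
  rw [hY, ← Real.exp_add]
  apply Real.exp_le_exp.2
  have a1 : (1 + e) * (1 + e) ≤ 1 + ε := by
    have : e * e ≤ 1 * e := mul_le_mul_of_nonneg_right (by linarith) he0.le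
    have e1 : (1 + e) * (1 + e) = 1 + 2 * e + e * e := by ring
    rw [e1]
    linarith
  have a2 := mul_le_mul_of_nonneg_right a1 hX0.le
  have a3 : (C1 + 2) * L ≤ C * L := by
    apply mul_le_mul_of_nonneg_right _ (by linarith)
    rw [hC]
    linarith
  linarith

/-- **the conditional law of the shape** -/
theorem Z_cond {δ κ : ℝ} (hδ : 0 < δ) (hκ : 0 < κ) : ∃ c C s₀ : ℝ, 0 < c ∧ 0 < C ∧ 0 < s₀ ∧
    ∀ z : ℝ, 0 < z → 0 < -Real.log (z * mu) → ∀ s : ℝ, s₀ ≤ s →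
      C * Lm (-Real.log (z * mu)) ^ 2 ≤ s * g (-Real.log (z * mu)) →
      ∀ S : Set ℝ, Ioo (s ^ 2) ((1 + κ) * s ^ 2) ⊆ S → S ⊆ Ici (s ^ 2) →
      Summable (tm z (In S)) ∧ 0 < Zs z (In S) ∧
      Zs z (fun n f => (area (2 * n) f : ℝ) ∈ S ∧ FarU n s (-Real.log (z * mu)) δ f) ≤
        Real.exp (-(c * (s * g (-Real.log (z * mu))))) * Zs z (In S) := by
  obtain ⟨η, C1, hη, hη1, hC1, hfar⟩ := Z_far hδ
  obtain ⟨C2, s₀, hC2, hs₀, hwin⟩ := Z_win hκ (show 0 < η / 8 by linarith) (by linarith)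
  obtain ⟨C, hC⟩ : ∃ C, C = C1 + C2 + 4 * (C1 + C2) / η := ⟨_, rfl⟩
  have hCη : 0 < 4 * (C1 + C2) / η := by positivity
  refine ⟨η / 4, C, s₀ + C1, by linarith, by rw [hC]; positivity, by positivity, ?_⟩
  intro z hz hE s hs hX S hS1 hS2
  obtain ⟨w1, -⟩ := Z_up (show (0 : ℝ) < 1 / 2 by norm_num) (by norm_num) |>.choose_spec.2 z hz hE s
    (by linarith)
  have hs0 : 0 < s := by linarith
  obtain ⟨E, hEd⟩ : ∃ E, E = -Real.log (z * mu) := ⟨_, rfl⟩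
  have hLm := Lm_sq (E := E) (by rw [hEd]; exact hE)
  have hCL1 : C1 * Lm E ^ 2 ≤ C * Lm E ^ 2 := by
    apply mul_le_mul_of_nonneg_right _ (sq_nonneg _)
    rw [hC]
    linarith
  have hCL2 : C2 * Lm E ^ 2 ≤ C * Lm E ^ 2 := by
    apply mul_le_mul_of_nonneg_right _ (sq_nonneg _)
    rw [hC]
    linarith
  have h1 := hfar z hz hE s (by linarith) (by rw [← hEd] at hX ⊢; linarith)
  obtain ⟨h2, h3⟩ := hwin z hz hE s (by linarith) (by rw [← hEd] at hX ⊢; linarith) S hS1 hS2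
  obtain ⟨-, h4⟩ := sum_of_le hz (Q := fun n f => (area (2 * n) f : ℝ) ∈ S ∧
    FarU n s (-Real.log (z * mu)) δ f) (Q' := Fr s (-Real.log (z * mu)) δ)
    (fun n hn f hf hq => ⟨hS2 hq.1, hq.2⟩)
    (sum_of_le hz (Q' := Ar (s ^ 2)) (fun n hn f hf hq => hq.1) w1).1
  refine ⟨h2, (Real.exp_pos _).trans_le h3, ?_⟩
  refine h4.trans (h1.trans ?_)
  refine le_trans ?_ (mul_le_mul_of_nonneg_left h3 (Real.exp_pos _).le)
  rw [← Real.exp_add]
  apply Real.exp_le_exp.2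
  rw [← hEd] at hX hE ⊢
  have hg := g_pos hE
  obtain ⟨X, hXd⟩ : ∃ X, X = s * g E := ⟨_, rfl⟩
  rw [← hXd] at hX ⊢
  have a1 : 4 * (C1 + C2) / η * Lm E ^ 2 ≤ X := by
    have : 4 * (C1 + C2) / η * Lm E ^ 2 ≤ C * Lm E ^ 2 := by
      apply mul_le_mul_of_nonneg_right _ (sq_nonneg _)
      rw [hC]
      linarith
    linarith
  have a2 := mul_le_mul_of_nonneg_left a1 (show 0 ≤ η / 4 by linarith)
  have a3 : η / 4 * (4 * (C1 + C2) / η * Lm E ^ 2) = (C1 + C2) * Lm E ^ 2 := by field_simp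
  rw [a3] at a2
  have a4 : 0 ≤ η * X := by
    apply mul_nonneg hη.le
    rw [hXd]
    positivity
  linarith

end Pool.Agent.H26.GC
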