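import Pool.Agent.H26.GC.Per

/-!
The polygons weighted by a fugacity: the joint law of the shape, the area and the perimeter.
-/

set_option autoImplicit false

open MeasureTheory Set Filter Topology Metric
open scoped ENNReal Pointwise

namespace Pool.Agent.H26.GC

open Pool.Agent.T6.H44 Pool.Agent.T6.H44.PG
open Pool.Agent.Y981.L2 H981 Pool.Agent.H26.WS Pool.Agent.H26.UN
open Pool.Agent.H26.WF (Kc V g rho pr RR)

theorem exp4 {c C X L : ℝ} (hc : 0 < c) (hL : 0.47 ≤ L) (h : C * L ≤ X) (hC : 8 / c ≤ C) :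
    4 * Real.exp (-(c * X)) ≤ Real.exp (-(c / 2 * X)) := by
  have hc8 : 0 < 8 / c := by positivity
  have h1 : 8 / c * 0.47 ≤ X := by
    refine le_trans ?_ h
    refine (mul_le_mul_of_nonneg_left hL hc8.le).trans ?_
    apply mul_le_mul_of_nonneg_right hC
    linarith
  have h2 := mul_le_mul_of_nonneg_left h1 hc.le
  have e : c * (8 / c * 0.47) = 3.76 := by field_simp; norm_num
  rw [e] at h2
  have h3 : (4 : ℝ) ≤ Real.exp 1.5 := by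
    have h4 : Real.log 4 = 2 * Real.log 2 := by
      rw [show (4 : ℝ) = 2 ^ 2 by norm_num, Real.log_pow]
      norm_num
    have h5 := Real.log_two_lt_d9
    rw [← Real.log_le_iff_le_exp (by norm_num), h4]
    linarith
  have h4 : Real.exp 1.5 ≤ Real.exp (c * X / 2) := Real.exp_le_exp.2 (by linarith)
  have h5 := mul_le_mul_of_nonneg_right (h3.trans h4) (Real.exp_pos (-(c * X))).le
  refine h5.trans (le_of_eq ?_)
  rw [← Real.exp_add]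
  congr 1
  ring

theorem Zs_split {z : ℝ} (hz : 0 < z) {Q Q1 Q2 : ∀ n : ℕ, (ZMod (2 * n) → ℤ × ℤ) → Prop}
    (h : ∀ n, 2 ≤ n → ∀ f, IsLoop (2 * n) f → Q n f → Q1 n f ∨ Q2 n f)
    (s1 : Summable (tm z Q1)) (s2 : Summable (tm z Q2)) :
    Summable (tm z Q) ∧ Zs z Q ≤ Zs z Q1 + Zs z Q2 := by
  have h1 : Summable (tm z Q) :=
    Summable.of_nonneg_of_le (tm_nonneg hz Q) (tm_split hz h) (s1.add s2)
  refine ⟨h1, ?_⟩
  unfold Zs
  rw [← s1.tsum_add s2]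
  exact h1.tsum_le_tsum (tm_split hz h) (s1.add s2)

theorem ar5 {k : ℝ} (h0 : 0 ≤ k) (h1 : k ≤ 1) :
    1 + k / 16 + k / 2 ≤ (1 - k / 16) * (1 + k) := by
  have a1 : k * k ≤ 1 * k := mul_le_mul_of_nonneg_right h1 h0
  have e2 : (1 - k / 16) * (1 + k) = 1 + k - k / 16 - k * k / 16 := by ring
  rw [e2]
  linarith

/-- polygons whose area is too large -/
theorem Z_area {κ η : ℝ} (hκ : 0 < κ) (hη : 0 < η) : ∃ c C s₀ : ℝ, 0 < c ∧ 0 < C ∧ 0 < s₀ ∧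
    ∀ z : ℝ, 0 < z → 0 < -Real.log (z * mu) → ∀ s : ℝ, s₀ ≤ s →
      C * Lm (-Real.log (z * mu)) ^ 2 ≤ s * g (-Real.log (z * mu)) →
      ∀ S : Set ℝ, Ioo (s ^ 2) ((1 + κ) * s ^ 2) ⊆ S → S ⊆ Ici (s ^ 2) →
      Zs z (Ar ((1 + η) * s ^ 2)) ≤
        Real.exp (-(c * (s * g (-Real.log (z * mu))))) * Zs z (In S) := by
  obtain ⟨k, hk⟩ : ∃ k, k = min (η / 3) 1 := ⟨_, rfl⟩
  have hk0 : 0 < k := by rw [hk]; exact lt_min (by linarith) one_pos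
  have hk1 : k ≤ η / 3 := by rw [hk]; exact min_le_left _ _
  have hk2 : k ≤ 1 := by rw [hk]; exact min_le_right _ _
  obtain ⟨C1, hC1, hup⟩ := Z_up (show 0 < k / 16 by linarith) (by linarith)
  obtain ⟨C2, s₀, hC2, hs₀, hwin⟩ := Z_win hκ (show 0 < k / 16 by linarith) (by linarith)
  obtain ⟨C, hC⟩ : ∃ C, C = C2 + 2 * (C1 + C2) / k := ⟨_, rfl⟩
  have hCk : 0 < 2 * (C1 + C2) / k := by positivity
  refine ⟨k / 2, C, s₀, by linarith, by rw [hC]; positivity, hs₀, ?_⟩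
  intro z hz hE s hs hX S hS1 hS2
  have hs0 : 0 < s := by linarith
  have hss : 0 < s ^ 2 := by positivity
  obtain ⟨u1, u2⟩ := hup z hz hE ((1 + k) * s) (by positivity)
  have hL := Lm_sq hE
  obtain ⟨E, hEd⟩ : ∃ E, E = -Real.log (z * mu) := ⟨_, rfl⟩
  have hCL : C2 * Lm E ^ 2 ≤ C * Lm E ^ 2 := by
    apply mul_le_mul_of_nonneg_right _ (sq_nonneg _)
    rw [hC]
    linarith
  obtain ⟨-, h3⟩ := hwin z hz hE s hs (by rw [← hEd] at hX ⊢; linarith) S hS1 hS2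
  rw [← hEd] at hE u2 hX h3 hL ⊢
  have hg := g_pos hE
  obtain ⟨-, h4⟩ := sum_of_le hz (Q := Ar ((1 + η) * s ^ 2)) (Q' := Ar (((1 + k) * s) ^ 2))
    (fun n hn f hf hq => by
      have hq' : (1 + η) * s ^ 2 ≤ (area (2 * n) f : ℝ) := hq
      refine le_trans ?_ hq'
      rw [mul_pow]
      apply mul_le_mul_of_nonneg_right _ hss.le
      have : k * k ≤ 1 * k := mul_le_mul_of_nonneg_right hk2 hk0.le
      have e1 : (1 + k) ^ 2 = 1 + 2 * k + k * k := by ring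
      rw [e1]
      linarith) u1
  refine h4.trans (u2.trans ?_)
  refine le_trans ?_ (mul_le_mul_of_nonneg_left h3 (Real.exp_pos _).le)
  rw [← Real.exp_add]
  apply Real.exp_le_exp.2
  obtain ⟨X, hXd⟩ : ∃ X, X = s * g E := ⟨_, rfl⟩
  have e1 : (1 + k) * s * g E = (1 + k) * X := by rw [hXd]; ring
  rw [e1]
  rw [← hXd] at hX ⊢
  have hX0 : 0 < X := by rw [hXd]; positivity
  have a1 : 2 * (C1 + C2) / k * Lm E ^ 2 ≤ X := by
    have : 2 * (C1 + C2) / k * Lm E ^ 2 ≤ C * Lm E ^ 2 := by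
      apply mul_le_mul_of_nonneg_right _ (sq_nonneg _)
      rw [hC]
      linarith
    linarith
  have a2 := mul_le_mul_of_nonneg_left a1 (show 0 ≤ k / 2 by linarith)
  have a3 : k / 2 * (2 * (C1 + C2) / k * Lm E ^ 2) = (C1 + C2) * Lm E ^ 2 := by field_simp
  rw [a3] at a2
  have a4 := mul_le_mul_of_nonneg_right (ar5 hk0.le hk2) hX0.le
  have e2 : (1 - k / 16) * (1 + k) * X = (1 - k / 16) * ((1 + k) * X) := by ring
  have e3 : (1 + k / 16 + k / 2) * X = (1 + k / 16) * X + k / 2 * X := by ring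
  rw [e2, e3] at a4
  linarith

theorem Z_per' {κ δ h : ℝ} (hκ : 0 < κ) (hδ : 0 < δ) (h0 : 0 < h) (h1 : h < 1) :
    ∃ c C s₀ : ℝ, 0 < c ∧ 0 < C ∧ 0 < s₀ ∧
    ∀ z : ℝ, 0 < z → 0 < -Real.log (z * mu) → ∀ s : ℝ, s₀ ≤ s →
      C * Lm (-Real.log (z * mu)) ^ 2 ≤ s * g (-Real.log (z * mu)) →
      ∀ S : Set ℝ, Ioo (s ^ 2) ((1 + κ) * s ^ 2) ⊆ S → S ⊆ Ici (s ^ 2) →
      Zs z (Lng s (-Real.log (z * mu)) h δ) ≤
        Real.exp (-(c * (s * g (-Real.log (z * mu))))) * Zs z (In S) ∧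
      Zs z (Sht s (-Real.log (z * mu)) h δ) ≤
        Real.exp (-(c * (s * g (-Real.log (z * mu))))) * Zs z (In S) := by
  obtain ⟨ε, hε⟩ : ∃ ε, ε = min (δ * h / 8) (1 / 2) := ⟨_, rfl⟩
  have hdh : 0 < δ * h := mul_pos hδ h0
  have hε0 : 0 < ε := by rw [hε]; exact lt_min (by linarith) (by norm_num)
  have hε1 : ε ≤ δ * h / 8 := by rw [hε]; exact min_le_left _ _
  have hε2 : ε ≤ 1 / 2 := by rw [hε]; exact min_le_right _ _
  obtain ⟨C1, hC1, hup⟩ := Z_per hδ h0 h1 hε0 (by linarith)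
  obtain ⟨C2, s₀, hC2, hs₀, hwin⟩ := Z_win hκ hε0 (by linarith)
  obtain ⟨C, hC⟩ : ∃ C, C = C2 + 2 * (C1 + C2) / (δ * h) := ⟨_, rfl⟩
  have hCk : 0 < 2 * (C1 + C2) / (δ * h) := by positivity
  refine ⟨δ * h / 2, C, s₀, by linarith, by rw [hC]; positivity, hs₀, ?_⟩
  intro z hz hE s hs hX S hS1 hS2
  have hs0 : 0 < s := by linarith
  obtain ⟨u1, u2⟩ := hup z hz hE s hs0
  have hL := Lm_sq hE
  obtain ⟨E, hEd⟩ : ∃ E, E = -Real.log (z * mu) := ⟨_, rfl⟩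
  have hCL : C2 * Lm E ^ 2 ≤ C * Lm E ^ 2 := by
    apply mul_le_mul_of_nonneg_right _ (sq_nonneg _)
    rw [hC]
    linarith
  obtain ⟨-, h3⟩ := hwin z hz hE s hs (by rw [← hEd] at hX ⊢; linarith) S hS1 hS2
  rw [← hEd] at hE u1 u2 hX h3 hL ⊢
  have hg := g_pos hE
  obtain ⟨X, hXd⟩ : ∃ X, X = s * g E := ⟨_, rfl⟩
  rw [← hXd] at hX h3 u1 u2 ⊢
  have hX0 : 0 < X := by rw [hXd]; positivity
  have a1 : 2 * (C1 + C2) / (δ * h) * Lm E ^ 2 ≤ X := by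
    have : 2 * (C1 + C2) / (δ * h) * Lm E ^ 2 ≤ C * Lm E ^ 2 := by
      apply mul_le_mul_of_nonneg_right _ (sq_nonneg _)
      rw [hC]
      linarith
    linarith
  have a2 := mul_le_mul_of_nonneg_left a1 (show 0 ≤ δ * h / 2 by linarith)
  have a3 : δ * h / 2 * (2 * (C1 + C2) / (δ * h) * Lm E ^ 2) = (C1 + C2) * Lm E ^ 2 := by
    field_simp
  rw [a3] at a2
  have a4 : ε * X ≤ δ * h / 8 * X := mul_le_mul_of_nonneg_right hε1 hX0.le
  have hkey : Real.exp (C1 * Lm E ^ 2 - 2 * (1 + δ * h - 2 * ε) * X) ≤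
      Real.exp (-(δ * h / 2 * X)) * Zs z (In S) := by
    refine le_trans ?_ (mul_le_mul_of_nonneg_left h3 (Real.exp_pos _).le)
    rw [← Real.exp_add]
    apply Real.exp_le_exp.2
    have a5 : 0 ≤ δ * h * X := by positivity
    linarith
  exact ⟨u1.trans hkey, u2.trans hkey⟩

/-- **the joint law** -/
theorem Z_law {κ δ h : ℝ} (hκ : 0 < κ) (hδ : 0 < δ) (h0 : 0 < h) (h1 : h < 1) :
    ∃ c C s₀ : ℝ, 0 < c ∧ 0 < C ∧ 0 < s₀ ∧
    ∀ z : ℝ, 0 < z → 0 < -Real.log (z * mu) → ∀ s : ℝ, s₀ ≤ s →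
      C * Lm (-Real.log (z * mu)) ^ 2 ≤ s * g (-Real.log (z * mu)) →
      ∀ S : Set ℝ, Ioo (s ^ 2) ((1 + κ) * s ^ 2) ⊆ S → S ⊆ Ici (s ^ 2) →
      0 < Zs z (In S) ∧ ∀ Q : ∀ n : ℕ, (ZMod (2 * n) → ℤ × ℤ) → Prop,
      (∀ n : ℕ, 2 ≤ n → ∀ f, IsLoop (2 * n) f → Q n f → (area (2 * n) f : ℝ) ∈ S ∧
        (FarU n s (-Real.log (z * mu)) δ f ∨ (1 + δ) * s ^ 2 ≤ (area (2 * n) f : ℝ) ∨
          s * ((g (-Real.log (z * mu)) - g ((1 - h) * -Real.log (z * mu))) / h +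
            δ * g (-Real.log (z * mu))) ≤ n * -Real.log (z * mu) ∨
          n * -Real.log (z * mu) ≤ s * ((g ((1 + h) * -Real.log (z * mu)) -
            g (-Real.log (z * mu))) / h - δ * g (-Real.log (z * mu))))) →
      Zs z Q ≤ Real.exp (-(c * (s * g (-Real.log (z * mu))))) * Zs z (In S) := by
  obtain ⟨c1, C1, s1, hc1, hC1, hs1, H1⟩ := Z_cond hδ hκ
  obtain ⟨c2, C2, s2, hc2, hC2, hs2, H2⟩ := Z_area hκ hδ
  obtain ⟨c3, C3, s3, hc3, hC3, hs3, H3⟩ := Z_per' hκ hδ h0 h1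
  obtain ⟨C4, hC4, H4⟩ := Z_up (show (0 : ℝ) < 1 / 2 by norm_num) (by norm_num)
  obtain ⟨c, hc⟩ : ∃ c, c = min c1 (min c2 c3) := ⟨_, rfl⟩
  have hc0 : 0 < c := by rw [hc]; exact lt_min hc1 (lt_min hc2 hc3)
  have hcc1 : c ≤ c1 := by rw [hc]; exact min_le_left _ _
  have hcc2 : c ≤ c2 := by rw [hc]; exact (min_le_right _ _).trans (min_le_left _ _)
  have hcc3 : c ≤ c3 := by rw [hc]; exact (min_le_right _ _).trans (min_le_right _ _)
  have h8 : 0 < 8 / c := by positivity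
  refine ⟨c / 2, C1 + C2 + C3 + 8 / c, s1 + s2 + s3, by linarith, by positivity, by positivity, ?_⟩
  intro z hz hE s hs hX S hS1 hS2
  have hs0 : 0 < s := by linarith
  have hL := Lm_sq hE
  have hss := (H4 z hz hE s hs0).1
  obtain ⟨E, hEd⟩ : ∃ E, E = -Real.log (z * mu) := ⟨_, rfl⟩
  have hL0 : 0 ≤ Lm E ^ 2 := sq_nonneg _
  have b1 := mul_nonneg hC1.le hL0
  have b2 := mul_nonneg hC2.le hL0
  have b3 := mul_nonneg hC3.le hL0
  have b4 := mul_nonneg h8.le hL0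
  have hX' : (C1 + C2 + C3 + 8 / c) * Lm E ^ 2 ≤ s * g E := by rw [hEd]; exact hX
  have e0 : (C1 + C2 + C3 + 8 / c) * Lm E ^ 2 = C1 * Lm E ^ 2 + C2 * Lm E ^ 2 + C3 * Lm E ^ 2 +
    8 / c * Lm E ^ 2 := by ring
  rw [e0] at hX'
  obtain ⟨t1, t2, t3⟩ := H1 z hz hE s (by linarith) (by rw [← hEd]; linarith) S hS1 hS2
  have q2 := H2 z hz hE s (by linarith) (by rw [← hEd]; linarith) S hS1 hS2
  obtain ⟨q3, q4⟩ := H3 z hz hE s (by linarith) (by rw [← hEd]; linarith) S hS1 hS2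
  refine ⟨t2, ?_⟩
  intro Q hQ
  rw [← hEd] at hE hL t3 q2 q3 q4 hQ ⊢
  have hg := g_pos hE
  obtain ⟨X, hXd⟩ : ∃ X, X = s * g E := ⟨_, rfl⟩
  have hX0 : 0 < X := by rw [hXd]; positivity
  have hcx : ∀ c', c ≤ c' → Real.exp (-(c' * X)) ≤ Real.exp (-(c * X)) := by
    intro c' h
    apply Real.exp_le_exp.2
    have := mul_le_mul_of_nonneg_right h hX0.le
    linarith
  obtain ⟨F1, hF1⟩ : ∃ F1 : ∀ n : ℕ, (ZMod (2 * n) → ℤ × ℤ) → Prop,
    F1 = fun n f => (area (2 * n) f : ℝ) ∈ S ∧ FarU n s E δ f := ⟨_, rfl⟩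
  rw [← hF1] at t3
  have sF1 : Summable (tm z F1) := (sum_of_le hz (fun n hn f hf hq => by
    rw [hF1] at hq
    exact hS2 hq.1) hss).1
  have sF2 : Summable (tm z (Ar ((1 + δ) * s ^ 2))) := (sum_of_le hz (fun n hn f hf hq => by
    have hq' : (1 + δ) * s ^ 2 ≤ (area (2 * n) f : ℝ) := hq
    have : 0 ≤ δ * s ^ 2 := by positivity
    have e : (1 + δ) * s ^ 2 = s ^ 2 + δ * s ^ 2 := by ring
    rw [e] at hq'
    show s ^ 2 ≤ (area (2 * n) f : ℝ)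
    linarith) hss).1
  have sF3 : Summable (tm z (Lng s E h δ)) := (sum_of_le hz (fun n hn f hf hq => hq.1) hss).1
  have sF4 : Summable (tm z (Sht s E h δ)) := (sum_of_le hz (fun n hn f hf hq => hq.1) hss).1
  obtain ⟨r1, r2⟩ := Zs_split hz (Q := fun n f => Lng s E h δ n f ∨ Sht s E h δ n f)
    (fun n hn f hf hq => hq) sF3 sF4
  obtain ⟨r3, r4⟩ := Zs_split hz (Q := fun n f => Ar ((1 + δ) * s ^ 2) n f ∨
    (Lng s E h δ n f ∨ Sht s E h δ n f)) (fun n hn f hf hq => hq) sF2 r1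
  obtain ⟨r5, r6⟩ := Zs_split hz (Q := Q) (Q1 := F1) (Q2 := fun n f => Ar ((1 + δ) * s ^ 2) n f ∨
    (Lng s E h δ n f ∨ Sht s E h δ n f)) (fun n hn f hf hq => by
      obtain ⟨hq1, hq2⟩ := hQ n hn f hf hq
      rcases hq2 with h' | h' | h' | h'
      · left
        rw [hF1]
        exact ⟨hq1, h'⟩
      · exact Or.inr (Or.inl h')
      · exact Or.inr (Or.inr (Or.inl ⟨hS2 hq1, h'⟩))
      · exact Or.inr (Or.inr (Or.inr ⟨hS2 hq1, h'⟩))) sF1 r3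
  rw [← hXd] at t3 q2 q3 q4 ⊢
  obtain ⟨Y, hY⟩ : ∃ Y, Y = Zs z (In S) := ⟨_, rfl⟩
  rw [← hY] at t2 t3 q2 q3 q4 ⊢
  have w1 := mul_le_mul_of_nonneg_right (hcx c1 hcc1) t2.le
  have w2 := mul_le_mul_of_nonneg_right (hcx c2 hcc2) t2.le
  have w3 := mul_le_mul_of_nonneg_right (hcx c3 hcc3) t2.le
  have h4 := exp4 (X := X) (L := Lm E ^ 2) hc0 hL (C := 8 / c) (by rw [hXd]; linarith) le_rfl
  have w4 := mul_le_mul_of_nonneg_right h4 t2.le
  linarith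

end Pool.Agent.H26.GC
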