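import Pool.Agent.H26.GC.Law

/-!
High moments of the area of the polygons of a given perimeter.
-/

set_option autoImplicit false

open MeasureTheory Set Filter Topology Metric
open scoped ENNReal Pointwise

namespace Pool.Agent.H26.GC

open Pool.Agent.T6.H44 Pool.Agent.T6.H44.PG
open Pool.Agent.TH795.EP2 (q)
open Pool.Agent.Y981.L2 H981 Pool.Agent.H26.WS Pool.Agent.H26.UN
open Pool.Agent.H26.WF (Kc V g rho pr RR)

/-- the sum of the powers of the areas of the loops -/
noncomputable def mw (n k : ℕ) : ℝ :=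
  ∑ᶠ f ∈ {f : ZMod (2 * n) → ℤ × ℤ | IsLoop (2 * n) f}, (area (2 * n) f : ℝ) ^ k

theorem mw_eq {n : ℕ} (hn : 1 ≤ n) (k : ℕ) :
    mw n k = ∑ f ∈ (loops_finite hn).toFinset, (area (2 * n) f : ℝ) ^ k := by
  unfold mw
  rw [finsum_mem_eq_finite_toFinset_sum _ (loops_finite hn)]

theorem mw_nonneg {n : ℕ} (hn : 1 ≤ n) (k : ℕ) : 0 ≤ mw n k := by
  rw [mw_eq hn]
  exact Finset.sum_nonneg fun f _ => by positivity

theorem card_PQ {n : ℕ} (hn : 1 ≤ n) (Q : ∀ n : ℕ, (ZMod (2 * n) → ℤ × ℤ) → Prop)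
    [DecidablePred (Q n)] :
    (PQ Q n).ncard = ((loops_finite hn).toFinset.filter (Q n)).card := by
  have h : PQ Q n = ((loops_finite hn).toFinset.filter (Q n) : Set (ZMod (2 * n) → ℤ × ℤ)) := by
    ext f
    simp [PQ]
  rw [h, Set.ncard_coe_finset]

/-- a sum of powers is small if all the tails are small -/
theorem mw_le {n : ℕ} (hn : 1 ≤ n) {k : ℕ} (hk : 1 ≤ k) {B : ℝ} (hB : 0 ≤ B)
    (h : ∀ a : ℕ, 1 ≤ a → (a : ℝ) ^ k * ((PQ (Ar a) n).ncard : ℝ) ≤ B) :
    mw n k ≤ ((n : ℝ) ^ 2 + 1) * B := by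
  classical
  rw [mw_eq hn]
  have hmap : ∀ f ∈ (loops_finite hn).toFinset, area (2 * n) f ∈ Finset.range (n ^ 2 + 1) := by
    intro f hf
    rw [Set.Finite.mem_toFinset] at hf
    have h1 := WF.area_quarter hn hf
    have h2 : (area (2 * n) f : ℝ) ≤ ((n ^ 2 : ℕ) : ℝ) := by
      push_cast
      have : (0 : ℝ) ≤ (n : ℝ) ^ 2 := by positivity
      linarith
    rw [Finset.mem_range]
    have h3 : area (2 * n) f ≤ n ^ 2 := by exact_mod_cast h2
    omega
  rw [← Finset.sum_fiberwise_of_maps_to hmap]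
  have hle : ∀ a ∈ Finset.range (n ^ 2 + 1),
      ∑ f ∈ (loops_finite hn).toFinset with area (2 * n) f = a, (area (2 * n) f : ℝ) ^ k ≤ B := by
    intro a _
    rcases Nat.eq_zero_or_pos a with h0 | h0
    · refine (Finset.sum_nonpos fun f hf => ?_).trans hB
      rw [Finset.mem_filter] at hf
      rw [hf.2, h0, Nat.cast_zero, zero_pow (by omega)]
    · refine le_trans ?_ (h a h0)
      have h1 : ∑ f ∈ (loops_finite hn).toFinset with area (2 * n) f = a,
          (area (2 * n) f : ℝ) ^ k =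
          ∑ f ∈ (loops_finite hn).toFinset with area (2 * n) f = a, (a : ℝ) ^ k := by
        apply Finset.sum_congr rfl
        intro f hf
        rw [Finset.mem_filter] at hf
        rw [hf.2]
      rw [h1, Finset.sum_const, nsmul_eq_mul, mul_comm]
      apply mul_le_mul_of_nonneg_left _ (by positivity)
      have h2 : DecidablePred (Ar (a : ℝ) n) := Classical.decPred _
      rw [card_PQ hn]
      have h3 : ((loops_finite hn).toFinset.filter (fun f => area (2 * n) f = a)).card ≤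
          ((loops_finite hn).toFinset.filter (Ar (a : ℝ) n)).card := by
        apply Finset.card_le_card
        intro f hf
        rw [Finset.mem_filter] at hf ⊢
        refine ⟨hf.1, ?_⟩
        show (a : ℝ) ≤ (area (2 * n) f : ℝ)
        rw [hf.2]
      exact_mod_cast h3
  refine (Finset.sum_le_sum hle).trans ?_
  rw [Finset.sum_const, Finset.card_range, nsmul_eq_mul]
  push_cast
  exact le_rfl

/-- a sum of powers is at least a tail -/
theorem le_mw {n : ℕ} (hn : 1 ≤ n) (k : ℕ) {A : ℝ} (hA : 0 ≤ A) :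
    A ^ k * ((PQ (Ar A) n).ncard : ℝ) ≤ mw n k := by
  classical
  rw [mw_eq hn, card_PQ hn, mul_comm, ← nsmul_eq_mul, ← Finset.sum_const]
  refine (Finset.sum_le_sum (fun f hf => ?_)).trans (Finset.sum_le_sum_of_subset_of_nonneg
    (Finset.filter_subset (Ar A n) _) (fun f _ _ => by positivity))
  rw [Finset.mem_filter] at hf
  exact pow_le_pow_left₀ hA hf.2 k

theorem sq_one {n : ℕ} (hn : 2 ≤ n) : (n : ℝ) ^ 2 + 1 ≤ Real.exp (5 * Real.log n ^ 2) := by
  refine le_trans ?_ (four_n_aux hn)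
  have hn2 : (2 : ℝ) ≤ n := by exact_mod_cast hn
  have h1 : (2 : ℝ) * 2 ≤ (n : ℝ) * n := mul_le_mul hn2 hn2 (by norm_num) (by linarith)
  have h2 : 2 * ((n : ℝ) * n) ≤ (n : ℝ) * ((n : ℝ) * n) :=
    mul_le_mul_of_nonneg_right hn2 (by linarith)
  have e1 : (n : ℝ) ^ 2 = (n : ℝ) * n := by ring
  have e2 : (n : ℝ) ^ 3 = (n : ℝ) * ((n : ℝ) * n) := by ring
  rw [e1, e2]
  linarith
where
  four_n_aux {n : ℕ} (hn : 2 ≤ n) : (n : ℝ) ^ 3 ≤ Real.exp (5 * Real.log n ^ 2) := by
    have hn2 : (2 : ℝ) ≤ n := by exact_mod_cast hn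
    have hn0 : (0 : ℝ) < n := by linarith
    have h2 : (n : ℝ) ^ 3 = Real.exp (3 * Real.log n) := by
      rw [← Real.exp_log hn0, ← Real.exp_nat_mul, Real.log_exp]
      norm_num
    rw [h2]
    apply Real.exp_le_exp.2
    have h3 : Real.log 2 ≤ Real.log n := Real.log_le_log (by norm_num) hn2
    have h4 := Real.log_two_gt_d9
    have h5 : 0.6 * Real.log n ≤ Real.log n * Real.log n :=
      mul_le_mul_of_nonneg_right (by linarith) (by linarith)
    have e : Real.log n * Real.log n = Real.log n ^ 2 := by ring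
    rw [e] at h5
    linarith

/-- the mean of the `k`-th power, upper bound -/
theorem mean_up {e : ℝ} (he : 0 < e) (he1 : e < 1) : ∃ C : ℝ, 0 < C ∧ ∀ n : ℕ, 2 ≤ n →
    ∀ k : ℕ, 1 ≤ k → ∀ Φ : ℝ, 0 ≤ Φ →
    (∀ u : ℝ, 0 < u → u < 1 / 4 → u * (n : ℝ) ^ 2 * Real.exp (-(n / k * RR u)) ≤ Φ) →
    mw n k / ln n ≤ Real.exp (C * Real.log n ^ 2) * (Φ / (1 - e)) ^ k := by
  obtain ⟨C1, hC1, hup⟩ := unif_up he he1
  obtain ⟨K, -, hln⟩ := Y981.L2.ln_le
  refine ⟨C1 + 5, by linarith, ?_⟩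
  intro n hn k hk Φ hΦ h
  have hn1 : 1 ≤ n := by omega
  have hn0 : (0 : ℝ) < n := by exact_mod_cast hn1
  have hk0 : (0 : ℝ) < k := by exact_mod_cast hk
  have hL := (hln n hn).1
  have he2 : 0 < 1 - e := by linarith
  have key := mw_le hn1 hk (B := Real.exp (C1 * Real.log n ^ 2) * (Φ / (1 - e)) ^ k * ln n)
    (by positivity) (by
      intro a ha
      have ha0 : (0 : ℝ) < a := by exact_mod_cast ha
      rw [card_Ar hn]
      rcases le_or_gt (a : ℝ) (1 / 4 * (n : ℝ) ^ 2) with h4 | h4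
      · obtain ⟨v, hv⟩ : ∃ v, v = (a : ℝ) / (n : ℝ) ^ 2 := ⟨_, rfl⟩
        have hv0 : 0 < v := by rw [hv]; positivity
        have hv4 : v ≤ 1 / 4 := by
          rw [hv, div_le_iff₀ (by positivity)]
          exact h4
        have hvn : v * (n : ℝ) ^ 2 = a := by rw [hv]; field_simp
        have h1 := hup n hn v hv0 hv4
        rw [hvn] at h1
        have hu0 : 0 < (1 - e) * v := mul_pos he2 hv0
        have hu4 : (1 - e) * v < 1 / 4 := by
          have := mul_pos he hv0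
          linarith
        have h2 := h _ hu0 hu4
        have e1 : (1 - e) * v * (n : ℝ) ^ 2 = (1 - e) * a := by rw [mul_assoc, hvn]
        rw [e1] at h2
        have h3 : (a : ℝ) * Real.exp (-(n / k * RR ((1 - e) * v))) ≤ Φ / (1 - e) := by
          rw [le_div_iff₀ he2]
          linarith
        have h5 := pow_le_pow_left₀ (by positivity) h3 k
        rw [mul_pow, ← Real.exp_nat_mul] at h5
        have e2 : (k : ℝ) * -(n / k * RR ((1 - e) * v)) = -(n * RR ((1 - e) * v)) := by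
          field_simp
        rw [e2] at h5
        have h6 : (a : ℝ) ^ k * (par n (a : ℝ) * ln n) ≤
            (a : ℝ) ^ k * (Real.exp (-(n * RR ((1 - e) * v)) + C1 * Real.log n ^ 2) * ln n) :=
          mul_le_mul_of_nonneg_left (mul_le_mul_of_nonneg_right h1 hL.le) (by positivity)
        refine h6.trans ?_
        rw [Real.exp_add]
        have h7 := mul_le_mul_of_nonneg_left h5
          (show 0 ≤ Real.exp (C1 * Real.log n ^ 2) * ln n by positivity)
        refine le_of_eq_of_le ?_ (h7.trans (le_of_eq ?_)) <;> ring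
      · have hempty : PQ (Ar (a : ℝ)) n = ∅ := by
          rw [Set.eq_empty_iff_forall_notMem]
          rintro f ⟨hf, hA⟩
          have h1 := WF.area_quarter hn1 hf
          have hA' : (a : ℝ) ≤ (area (2 * n) f : ℝ) := hA
          linarith
        have h1 := card_Ar hn (a : ℝ)
        rw [hempty, Set.ncard_empty, Nat.cast_zero] at h1
        rw [← h1, mul_zero]
        positivity)
  rw [div_le_iff₀ hL]
  refine key.trans ?_
  have h1 := mul_le_mul_of_nonneg_right (sq_one hn)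
    (show 0 ≤ Real.exp (C1 * Real.log n ^ 2) * (Φ / (1 - e)) ^ k * ln n by positivity)
  refine h1.trans (le_of_eq ?_)
  rw [add_mul, Real.exp_add]
  ring

/-- the mean of the `k`-th power, lower bound -/
theorem mean_low {e : ℝ} (he : 0 < e) (he1 : e < 1) : ∃ (C : ℝ) (n₀ : ℕ), 0 < C ∧ 2 ≤ n₀ ∧
    ∀ n : ℕ, n₀ ≤ n → ∀ k : ℕ, 1 ≤ k → ∀ u : ℝ, 0 < u → u < 1 / 4 →
    Real.exp (-(C * Real.log n ^ 2)) *
      (u * (n : ℝ) ^ 2 * Real.exp (-(n / k * RR u)) / (1 + e)) ^ k ≤ mw n k / ln n := by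
  obtain ⟨C1, n₀, hC1, hn₀, hlow⟩ := unif_low he he1
  obtain ⟨K, -, hln⟩ := Y981.L2.ln_le
  refine ⟨C1, n₀, hC1, hn₀, ?_⟩
  intro n hn k hk u hu hu4
  have hn2 : 2 ≤ n := by omega
  have hn1 : 1 ≤ n := by omega
  have hn0 : (0 : ℝ) < n := by exact_mod_cast hn1
  have hk0 : (0 : ℝ) < k := by exact_mod_cast hk
  have hL := (hln n hn2).1
  have he2 : 0 < 1 + e := by linarith
  obtain ⟨v, hv⟩ : ∃ v, v = u / (1 + e) := ⟨_, rfl⟩
  have hv0 : 0 < v := by rw [hv]; positivity
  have hvu : (1 + e) * v = u := by rw [hv]; field_simp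
  have h1 := hlow n hn v hv0 (by rw [hvu]; exact hu4)
  rw [hvu] at h1
  have h2 := le_mw hn1 k (A := v * (n : ℝ) ^ 2) (by positivity)
  rw [card_Ar hn2] at h2
  rw [le_div_iff₀ hL]
  refine le_trans ?_ h2
  have h3 : (v * (n : ℝ) ^ 2) ^ k * (Real.exp (-(n * RR u) - C1 * Real.log n ^ 2) * ln n) ≤
      (v * (n : ℝ) ^ 2) ^ k * (par n (v * (n : ℝ) ^ 2) * ln n) :=
    mul_le_mul_of_nonneg_left (mul_le_mul_of_nonneg_right h1 hL.le) (by positivity)
  refine le_of_eq_of_le ?_ h3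
  have e1 : u * (n : ℝ) ^ 2 * Real.exp (-(n / k * RR u)) / (1 + e) =
      v * (n : ℝ) ^ 2 * Real.exp (-(n / k * RR u)) := by
    rw [hv]
    ring
  rw [e1, mul_pow, ← Real.exp_nat_mul]
  have e2 : (k : ℝ) * -(n / k * RR u) = -(n * RR u) := by
    field_simp
  rw [e2, sub_eq_add_neg, Real.exp_add]
  ring

end Pool.Agent.H26.GC
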