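import Pool.Agent.H26.GC.Mom

/-!
High moments of the area of the polygons weighted by a fugacity.
-/

set_option autoImplicit false

open MeasureTheory Set Filter Topology Metric
open scoped ENNReal Pointwise

namespace Pool.Agent.H26.GC

open Pool.Agent.T6.H44 Pool.Agent.T6.H44.PG
open Pool.Agent.TH795.EP2 (q)
open Pool.Agent.Y981.L2 H981 Pool.Agent.H26.WS Pool.Agent.H26.UN
open Pool.Agent.H26.WF (Kc V g rho pr RR)

/-- the number of polygons of a given perimeter and large area -/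
theorem card_up {ε : ℝ} (hε : 0 < ε) (hε1 : ε < 1) : ∃ K e : ℝ, 0 ≤ K ∧ 0 < e ∧ ∀ E : ℝ, 0 < E →
    ∀ s : ℝ, 0 < s → ∀ n : ℕ, 2 ≤ n → ((PQ (Ar (s ^ 2)) n).ncard : ℝ) ≤
      Real.exp (K * Real.log n ^ 2 + 2 * (n * ((1 - e) * E)) - 2 * (1 - ε) * (s * g E)) *
        mu ^ (2 * n) := by
  obtain ⟨e, he⟩ : ∃ e, e = ε / 2 := ⟨_, rfl⟩
  have he0 : 0 < e := by rw [he]; linarith
  have he1 : e < 1 := by rw [he]; linarith
  obtain ⟨C1, hC1, hup⟩ := unif_up he0 he1
  obtain ⟨K, hK, hln⟩ := Y981.L2.ln_le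
  refine ⟨C1 + K, e, by positivity, he0, ?_⟩
  intro E hE s hs n hn
  have hn1 : 1 ≤ n := by omega
  have hn0 : (0 : ℝ) < n := by exact_mod_cast hn1
  have hmu := mu_pos
  have hg := g_pos hE
  rcases le_or_gt (s ^ 2) (1 / 4 * (n : ℝ) ^ 2) with h4 | h4
  · rw [card_Ar hn]
    obtain ⟨v, hv⟩ : ∃ v, v = s ^ 2 / (n : ℝ) ^ 2 := ⟨_, rfl⟩
    have hv0 : 0 < v := by rw [hv]; positivity
    have hv4 : v ≤ 1 / 4 := by
      rw [hv, div_le_iff₀ (by positivity)]
      exact h4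
    have hvn : v * (n : ℝ) ^ 2 = s ^ 2 := by rw [hv]; field_simp
    have h1 := hup n hn v hv0 hv4
    rw [hvn] at h1
    have hw0 : 0 ≤ (1 - e) * v := mul_nonneg (by linarith) hv0.le
    have hw4 : (1 - e) * v ≤ 1 / 4 := by
      have := mul_nonneg he0.le hv0.le
      linarith
    have hws := WF.sqrt_mem ⟨hw0, hw4⟩
    have hE' : 0 < (1 - e) * E := mul_pos (by linarith) hE
    have h2 := WF.le_rho hws.1 hws.2 hE'
    rw [← WF.RR_eq hw0] at h2
    have h3 : n * √((1 - e) * v) = √(1 - e) * s := by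
      rw [Real.sqrt_mul (by linarith)]
      have : √v = s / n := by
        rw [hv, Real.sqrt_div (by positivity), Real.sqrt_sq hs.le, Real.sqrt_sq hn0.le]
      rw [this]
      field_simp
    have h5 : (1 - 2 * e) * (s * g E) ≤ n * (√((1 - e) * v) * g ((1 - e) * E)) := by
      rw [← mul_assoc (n : ℝ), h3]
      have a1 : (1 - e) * g E ≤ g ((1 - e) * E) := g_down hE he0.le he1
      have a2 : 1 - e ≤ √(1 - e) := by
        apply Real.le_sqrt_of_sq_le
        have : (1 - e) * (1 - e) ≤ (1 - e) * 1 :=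
          mul_le_mul_of_nonneg_left (by linarith) (by linarith)
        rw [sq]
        linarith
      have a3 : (1 - e) * s * ((1 - e) * g E) ≤ √(1 - e) * s * g ((1 - e) * E) := by
        apply mul_le_mul (mul_le_mul_of_nonneg_right a2 hs.le) a1
        · exact mul_nonneg (by linarith) hg.le
        · positivity
      have a4 : (1 - e) * s * ((1 - e) * g E) = (1 - 2 * e) * (s * g E) + e ^ 2 * (s * g E) := by
        ring
      have : 0 ≤ e ^ 2 * (s * g E) := by positivity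
      linarith
    have h6 := mul_le_mul_of_nonneg_left h2 hn0.le
    obtain ⟨k1, k2⟩ := hln n hn
    have h7 : par n (s ^ 2) * ln n ≤
        Real.exp (-(n * RR ((1 - e) * v)) + C1 * Real.log n ^ 2) * (mu ^ (2 * n) * q n K) :=
      mul_le_mul h1 k2 k1.le (Real.exp_pos _).le
    refine h7.trans (le_of_eq_of_le ?_ (mul_le_mul_of_nonneg_right (Real.exp_le_exp.2
      (show -(n * RR ((1 - e) * v)) + C1 * Real.log n ^ 2 + K * Real.log n ^ 2 ≤
        (C1 + K) * Real.log n ^ 2 + 2 * (n * ((1 - e) * E)) - 2 * (1 - ε) * (s * g E) by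
          have : ε = 2 * e := by rw [he]; ring
          rw [this]
          linarith)) (pow_pos hmu _).le))
    unfold q
    rw [Real.exp_add _ (K * Real.log n ^ 2)]
    ring
  · have hempty : PQ (Ar (s ^ 2)) n = ∅ := by
      rw [Set.eq_empty_iff_forall_notMem]
      rintro f ⟨hf, hA⟩
      have h1 := WF.area_quarter hn1 hf
      have hA' : s ^ 2 ≤ (area (2 * n) f : ℝ) := hA
      linarith
    rw [hempty, Set.ncard_empty, Nat.cast_zero]
    positivity

/-- the terms of the `k`-th moment at fugacity `z` -/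
noncomputable def mt (z : ℝ) (k j : ℕ) : ℝ :=
  z ^ (2 * (j + 2)) * mw (j + 2) k / (4 * ((j + 2 : ℕ) : ℝ))

/-- the `k`-th moment of the area at fugacity `z` -/
noncomputable def Mz (z : ℝ) (k : ℕ) : ℝ := ∑' j : ℕ, mt z k j

theorem mt_nonneg {z : ℝ} (hz : 0 < z) (k j : ℕ) : 0 ≤ mt z k j := by
  have := mw_nonneg (show 1 ≤ j + 2 by omega) k
  unfold mt
  positivity

theorem sq_exp {x : ℝ} (hx : 0 ≤ x) (k : ℕ) : x ^ (2 * k) * Real.exp (-x) ≤ (2 * k).factorial := by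
  have h1 := Real.pow_div_factorial_le_exp x hx (2 * k)
  rw [div_le_iff₀ (by positivity)] at h1
  have h2 := mul_le_mul_of_nonneg_right h1 (Real.exp_pos (-x)).le
  have e : Real.exp x * ((2 * k).factorial : ℝ) * Real.exp (-x) = (2 * k).factorial := by
    rw [mul_right_comm, ← Real.exp_add]
    simp
  rwa [e] at h2

theorem Mz_up {ε : ℝ} (hε : 0 < ε) (hε1 : ε < 1) : ∃ C : ℝ, 0 < C ∧ ∀ z : ℝ, 0 < z →
    0 < -Real.log (z * mu) → ∀ k : ℕ, 1 ≤ k → Summable (mt z k) ∧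
      Mz z k ≤ Real.exp (C * Lm (-Real.log (z * mu)) ^ 2) *
        (((2 * k).factorial : ℝ) / (2 * (1 - ε) * g (-Real.log (z * mu))) ^ (2 * k)) := by
  obtain ⟨K, e, hK, he, hcard⟩ := card_up hε hε1
  obtain ⟨C, hC, h⟩ := sum_bd (show 0 ≤ K + 5 by linarith) (show 0 < 2 * e by positivity)
  refine ⟨C, hC, ?_⟩
  intro z hz hE k hk
  have hzp := zpow hz
  obtain ⟨E, hEd⟩ : ∃ E, E = -Real.log (z * mu) := ⟨_, rfl⟩
  rw [← hEd] at hE hzp ⊢
  obtain ⟨h1, h2⟩ := h E hE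
  have hg := g_pos hE
  have hmu := mu_pos
  have hε2 : 0 < 1 - ε := by linarith
  have hb : 0 < 2 * (1 - ε) * g E := by positivity
  obtain ⟨D, hD⟩ : ∃ D : ℝ, D = ((2 * k).factorial : ℝ) / (2 * (1 - ε) * g E) ^ (2 * k) :=
    ⟨_, rfl⟩
  have hD0 : 0 < D := by rw [hD]; positivity
  rw [← hD]
  obtain ⟨G, hG⟩ : ∃ G : ℕ → ℝ, G = fun n : ℕ =>
    Real.exp ((K + 5) * Real.log n ^ 2 - 2 * e * (n * E)) := ⟨_, rfl⟩
  rw [← hG] at h1 h2
  have hG0 : ∀ n, 0 ≤ G n := fun n => by rw [hG]; exact (Real.exp_pos _).le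
  have hmw : ∀ n : ℕ, 2 ≤ n → mw n k ≤
      Real.exp ((K + 5) * Real.log n ^ 2 + 2 * (n * ((1 - e) * E))) * mu ^ (2 * n) * D := by
    intro n hn
    have h3 := mw_le (by omega : 1 ≤ n) hk (B := Real.exp (K * Real.log n ^ 2 +
      2 * (n * ((1 - e) * E))) * mu ^ (2 * n) * D) (by positivity) (by
        intro a ha
        have ha0 : (0 : ℝ) < a := by exact_mod_cast ha
        have hs := Real.sqrt_pos.2 ha0
        have h4 := hcard E hE √(a : ℝ) hs n hn
        rw [Real.sq_sqrt ha0.le] at h4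
        have h5 := mul_le_mul_of_nonneg_left h4 (show (0 : ℝ) ≤ (a : ℝ) ^ k by positivity)
        refine h5.trans ?_
        have h6 := sq_exp (x := 2 * (1 - ε) * (√(a : ℝ) * g E)) (by positivity) k
        have e1 : (2 * (1 - ε) * (√(a : ℝ) * g E)) ^ (2 * k) =
            (2 * (1 - ε) * g E) ^ (2 * k) * (a : ℝ) ^ k := by
          have : 2 * (1 - ε) * (√(a : ℝ) * g E) = 2 * (1 - ε) * g E * √(a : ℝ) := by ring
          rw [this, mul_pow, pow_mul √(a : ℝ), Real.sq_sqrt ha0.le]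
        rw [e1] at h6
        have h7 : (a : ℝ) ^ k * Real.exp (-(2 * (1 - ε) * (√(a : ℝ) * g E))) ≤ D := by
          rw [hD, le_div_iff₀ (by positivity)]
          linarith
        rw [sub_eq_add_neg, Real.exp_add]
        have h8 := mul_le_mul_of_nonneg_left h7 (show 0 ≤ Real.exp (K * Real.log n ^ 2 +
          2 * (n * ((1 - e) * E))) * mu ^ (2 * n) by positivity)
        refine le_of_eq_of_le ?_ h8
        ring)
    refine h3.trans ?_
    have h4 := mul_le_mul_of_nonneg_right (sq_one hn) (show 0 ≤ Real.exp (K * Real.log n ^ 2 +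
      2 * (n * ((1 - e) * E))) * mu ^ (2 * n) * D by positivity)
    refine h4.trans (le_of_eq ?_)
    have e3 : (K + 5) * Real.log n ^ 2 + 2 * (n * ((1 - e) * E)) =
      5 * Real.log n ^ 2 + (K * Real.log n ^ 2 + 2 * (n * ((1 - e) * E))) := by ring
    rw [e3, Real.exp_add (5 * Real.log (n : ℝ) ^ 2)]
    ring
  have hle : ∀ j, mt z k j ≤ D * G (j + 2) := by
    intro j
    have h3 := hmw (j + 2) (by omega)
    have hz2 : 0 < z ^ (2 * (j + 2)) := pow_pos hz _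
    have h4 : z ^ (2 * (j + 2)) * mw (j + 2) k ≤ D * G (j + 2) := by
      refine (mul_le_mul_of_nonneg_left h3 hz2.le).trans (le_of_eq ?_)
      rw [hG]
      simp only
      have e4 : z ^ (2 * (j + 2)) * (Real.exp ((K + 5) * Real.log ((j + 2 : ℕ) : ℝ) ^ 2 +
          2 * (((j + 2 : ℕ) : ℝ) * ((1 - e) * E))) * mu ^ (2 * (j + 2)) * D) =
          D * (Real.exp ((K + 5) * Real.log ((j + 2 : ℕ) : ℝ) ^ 2 +
          2 * (((j + 2 : ℕ) : ℝ) * ((1 - e) * E))) * (z ^ (2 * (j + 2)) * mu ^ (2 * (j + 2)))) := by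
        ring
      rw [e4, hzp, ← Real.exp_add]
      congr 2
      ring
    unfold mt
    refine (div_le_self (mul_nonneg hz2.le (mw_nonneg (by omega) k)) ?_).trans h4
    have : (0 : ℝ) ≤ j := Nat.cast_nonneg j
    push_cast
    linarith
  have hs2 : Summable (fun j => G (j + 2)) := (summable_nat_add_iff 2).2 h1
  have hs : Summable (mt z k) :=
    Summable.of_nonneg_of_le (mt_nonneg hz k) hle (hs2.mul_left _)
  refine ⟨hs, ?_⟩
  unfold Mz
  refine (hs.tsum_le_tsum hle (hs2.mul_left _)).trans ?_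
  rw [tsum_mul_left, mul_comm]
  apply mul_le_mul_of_nonneg_right _ hD0.le
  have h4 := h1.sum_add_tsum_nat_add 2
  have h5 : 0 ≤ ∑ i ∈ Finset.range 2, G i := Finset.sum_nonneg fun i _ => hG0 i
  linarith

theorem Mz_ge {z : ℝ} (hz : 0 < z) {k : ℕ} (hs : Summable (mt z k)) {s : ℝ} (hs0 : 0 < s)
    (hs1 : Summable (tm z (Ar (s ^ 2)))) : s ^ (2 * k) * Zs z (Ar (s ^ 2)) ≤ Mz z k := by
  unfold Zs Mz
  rw [← tsum_mul_left]
  refine (hs1.mul_left _).tsum_le_tsum (fun j => ?_) hs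
  have h1 := le_mw (show 1 ≤ j + 2 by omega) k (A := s ^ 2) (by positivity)
  rw [← pow_mul] at h1
  unfold tm mt
  rw [← mul_div_assoc]
  apply div_le_div_of_nonneg_right _ (by positivity)
  have h2 := mul_le_mul_of_nonneg_left h1 (pow_pos hz (2 * (j + 2))).le
  refine le_of_eq_of_le ?_ h2
  ring

theorem fact_le (n : ℕ) (hn : 1 ≤ n) :
    (n.factorial : ℝ) ≤ n * (n : ℝ) ^ n * Real.exp (1 - n) := by
  induction n, hn using Nat.le_induction with
  | base => simp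
  | succ n hn ih =>
    have hn0 : (0 : ℝ) < n := by exact_mod_cast hn
    rw [Nat.factorial_succ]
    push_cast
    have h1 : (n : ℝ) ^ (n + 1) * Real.exp 1 ≤ ((n : ℝ) + 1) ^ (n + 1) := by
      have h2 : 1 / ((n : ℝ) + 1) ≤ Real.log (((n : ℝ) + 1) / n) := by
        have h3 := Real.one_sub_inv_le_log_of_pos (show 0 < ((n : ℝ) + 1) / n by positivity)
        have e : 1 - (((n : ℝ) + 1) / n)⁻¹ = 1 / ((n : ℝ) + 1) := by
          field_simp
          ring
        rwa [e] at h3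
      have h4 : (1 : ℝ) ≤ ((n + 1 : ℕ) : ℝ) * Real.log (((n : ℝ) + 1) / n) := by
        push_cast
        have := mul_le_mul_of_nonneg_left h2 (show (0 : ℝ) ≤ n + 1 by positivity)
        rwa [mul_one_div_cancel (by positivity)] at this
      have h5 := Real.exp_le_exp.2 h4
      rw [Real.exp_nat_mul, Real.exp_log (by positivity), div_pow, le_div_iff₀ (by positivity)] at h5
      linarith
    have h2 : ((n : ℝ) + 1) * (n.factorial : ℝ) ≤
        ((n : ℝ) + 1) * (n * (n : ℝ) ^ n * Real.exp (1 - n)) :=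
      mul_le_mul_of_nonneg_left ih (by positivity)
    refine h2.trans ?_
    have e1 : (1 : ℝ) - n = 1 + (1 - (n + 1)) := by ring
    rw [e1, Real.exp_add]
    have h3 := mul_le_mul_of_nonneg_left h1
      (show 0 ≤ ((n : ℝ) + 1) * Real.exp (1 - (n + 1)) by positivity)
    refine le_of_eq_of_le ?_ (h3.trans (le_of_eq ?_))
    · ring
    · ring

theorem Mz_low {ε : ℝ} (hε : 0 < ε) (hε1 : ε < 1) : ∃ C s₀ : ℝ, 0 < C ∧ 0 < s₀ ∧
    ∀ z : ℝ, 0 < z → 0 < -Real.log (z * mu) → ∀ k : ℕ, 1 ≤ k →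
      s₀ * ((1 + ε) * g (-Real.log (z * mu))) ≤ k →
      Real.exp (-(C * Lm (-Real.log (z * mu)) ^ 2)) * (((2 * k).factorial : ℝ) /
        (2 * (1 + ε) * g (-Real.log (z * mu))) ^ (2 * k)) ≤ 6 * k * Mz z k := by
  obtain ⟨C, s₀, hC, hs₀, hlow⟩ := Z_low hε hε1
  obtain ⟨C', hC', hup⟩ := Z_up hε hε1
  obtain ⟨C'', hC'', hM⟩ := Mz_up hε hε1
  refine ⟨C, s₀, hC, hs₀, ?_⟩
  intro z hz hE k hk hbig
  have hk0 : (0 : ℝ) < k := by exact_mod_cast hk
  have hsM := (hM z hz hE k hk).1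
  obtain ⟨E, hEd⟩ : ∃ E, E = -Real.log (z * mu) := ⟨_, rfl⟩
  have hE' := hE
  rw [← hEd] at hE hbig ⊢
  have hg := g_pos hE
  have hb : 0 < (1 + ε) * g E := by positivity
  obtain ⟨s, hs⟩ : ∃ s, s = k / ((1 + ε) * g E) := ⟨_, rfl⟩
  have hs0 : 0 < s := by rw [hs]; positivity
  have hss : s₀ ≤ s := by rw [hs, le_div_iff₀ hb]; exact hbig
  have h1 := hlow z hz hE' s hss
  have h2 := Mz_ge hz hsM hs0 (hup z hz hE' s hs0).1
  rw [← hEd] at h1
  have e1 : -(2 * (1 + ε) * (s * g E)) - C * Lm E ^ 2 = -(C * Lm E ^ 2) + -((2 * k : ℕ) : ℝ) := by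
    rw [hs]
    push_cast
    field_simp
    ring
  rw [e1, Real.exp_add] at h1
  have h3 := (mul_le_mul_of_nonneg_left h1 (show 0 ≤ s ^ (2 * k) by positivity)).trans h2
  have h4 := fact_le (2 * k) (by omega)
  obtain ⟨X, hX⟩ : ∃ X, X = Real.exp (-(C * Lm E ^ 2)) := ⟨_, rfl⟩
  have hX0 : 0 < X := by rw [hX]; exact Real.exp_pos _
  rw [← hX] at h3 ⊢
  have e2 : (2 * (1 + ε) * g E) ^ (2 * k) * s ^ (2 * k) = ((2 * k : ℕ) : ℝ) ^ (2 * k) := by
    rw [← mul_pow]
    congr 1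
    rw [hs]
    push_cast
    field_simp
  have hb2 : 0 < (2 * (1 + ε) * g E) ^ (2 * k) := by positivity
  rw [← mul_div_assoc, div_le_iff₀ hb2]
  have h5 : X * ((2 * k).factorial : ℝ) ≤ X * (((2 * k : ℕ) : ℝ) * ((2 * k : ℕ) : ℝ) ^ (2 * k) *
      Real.exp (1 - ((2 * k : ℕ) : ℝ))) := mul_le_mul_of_nonneg_left h4 hX0.le
  refine h5.trans ?_
  have h6 : Real.exp (1 - ((2 * k : ℕ) : ℝ)) ≤ 3 * Real.exp (-((2 * k : ℕ) : ℝ)) := by
    rw [sub_eq_add_neg, Real.exp_add]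
    apply mul_le_mul_of_nonneg_right _ (Real.exp_pos _).le
    have := Real.exp_one_lt_d9
    linarith
  have h7 : X * (((2 * k : ℕ) : ℝ) * ((2 * k : ℕ) : ℝ) ^ (2 * k) *
      Real.exp (1 - ((2 * k : ℕ) : ℝ))) ≤ X * (((2 * k : ℕ) : ℝ) * ((2 * k : ℕ) : ℝ) ^ (2 * k) *
      (3 * Real.exp (-((2 * k : ℕ) : ℝ)))) := by
    apply mul_le_mul_of_nonneg_left _ hX0.le
    exact mul_le_mul_of_nonneg_left h6 (by positivity)
  refine h7.trans ?_
  have h8 := mul_le_mul_of_nonneg_left h3 (show 0 ≤ 6 * (k : ℝ) * (2 * (1 + ε) * g E) ^ (2 * k) by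
    positivity)
  refine le_of_eq_of_le ?_ (h8.trans (le_of_eq ?_))
  · rw [← e2]
    push_cast
    ring
  · ring

end Pool.Agent.H26.GC
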