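import Pool.Agent.H26.GC.Mom2

/-!
High moments of the area: the final form.
-/

set_option autoImplicit false

open MeasureTheory Set Filter Topology Metric
open scoped ENNReal Pointwise

namespace Pool.Agent.H26.GC

open Pool.Agent.T6.H44 Pool.Agent.T6.H44.PG
open Pool.Agent.TH795.EP2 (q)
open Pool.Agent.Y981.L2 H981 Pool.Agent.H26.WS Pool.Agent.H26.UN
open Pool.Agent.H26.WF (Kc V g rho pr RR)

theorem inv_exp {e : ℝ} (h0 : 0 ≤ e) (h1 : e ≤ 1 / 2) : 1 / (1 - e) ≤ Real.exp (2 * e) := by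
  have h2 := Real.add_one_le_exp (2 * e)
  refine le_trans ?_ h2
  rw [div_le_iff₀ (by linarith)]
  have : e * e ≤ 1 / 2 * e := mul_le_mul_of_nonneg_right h1 h0
  have e1 : (2 * e + 1) * (1 - e) = 1 + e - 2 * (e * e) := by ring
  rw [e1]
  linarith

theorem exp_le_lin {x : ℝ} (h0 : 0 ≤ x) (h1 : x ≤ 1 / 2) : Real.exp x ≤ 1 + 2 * x := by
  have h2 := Real.add_one_le_exp (-x)
  have h3 : Real.exp x * Real.exp (-x) = 1 := by rw [← Real.exp_add]; simp
  have h4 : 1 ≤ (1 + 2 * x) * (1 - x) := by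
    have : x * x ≤ 1 / 2 * x := mul_le_mul_of_nonneg_right h1 h0
    have e1 : (1 + 2 * x) * (1 - x) = 1 + x - 2 * (x * x) := by ring
    rw [e1]
    linarith
  have h5 : (1 + 2 * x) * (1 - x) ≤ (1 + 2 * x) * Real.exp (-x) :=
    mul_le_mul_of_nonneg_left (by linarith) (by linarith)
  have h6 : Real.exp x * Real.exp (-x) ≤ (1 + 2 * x) * Real.exp (-x) := by linarith
  exact le_of_mul_le_mul_right h6 (Real.exp_pos _)

/-- the largest value of `u n² e^(- n R(u) / k)` -/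
noncomputable def pk (n k : ℕ) : ℝ :=
  sSup ((fun u : ℝ => u * (n : ℝ) ^ 2 * Real.exp (-(n / k * RR u))) '' Ioo 0 (1 / 4))

theorem RR_nonneg {u : ℝ} (h0 : 0 < u) (h1 : u < 1 / 4) : 0 ≤ RR u := by
  have hs := WF.sqrt_mem ⟨h0.le, h1.le⟩
  rw [WF.RR_eq h0.le]
  exact (WF.rho_pos (Real.sqrt_pos.2 h0) hs.2).le

theorem le_pk {n k : ℕ} (hk : 1 ≤ k) {u : ℝ} (h0 : 0 < u) (h1 : u < 1 / 4) :
    u * (n : ℝ) ^ 2 * Real.exp (-(n / k * RR u)) ≤ pk n k := by
  unfold pk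
  refine le_csSup ?_ (mem_image_of_mem _ (show u ∈ Ioo (0 : ℝ) (1 / 4) from ⟨h0, h1⟩))
  refine ⟨(n : ℝ) ^ 2, ?_⟩
  rintro _ ⟨v, ⟨hv0, hv1⟩, rfl⟩
  have h2 := RR_nonneg hv0 hv1
  have hk0 : (0 : ℝ) < k := by exact_mod_cast hk
  have h3 : Real.exp (-(n / k * RR v)) ≤ 1 := by
    rw [Real.exp_le_one_iff]
    have : 0 ≤ (n : ℝ) / k * RR v := by positivity
    linarith
  have h4 : v * (n : ℝ) ^ 2 ≤ 1 * (n : ℝ) ^ 2 :=
    mul_le_mul_of_nonneg_right (by linarith) (by positivity)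
  have h5 := mul_le_mul_of_nonneg_left h3 (show 0 ≤ v * (n : ℝ) ^ 2 by positivity)
  simp only
  linarith

theorem pk_nonneg {n k : ℕ} (hk : 1 ≤ k) : 0 ≤ pk n k := by
  refine le_trans ?_ (le_pk (n := n) (k := k) hk (u := 1 / 8) (by norm_num) (by norm_num))
  positivity

/-- **moments at fixed perimeter** -/
theorem mom_fixed {ε : ℝ} (hε : 0 < ε) (hε1 : ε < 1) : ∃ (C : ℝ) (n₀ : ℕ), 0 < C ∧ 2 ≤ n₀ ∧
    ∀ n : ℕ, n₀ ≤ n → ∀ k : ℕ, 1 ≤ k → C * Real.log n ^ 2 ≤ k →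
      ((1 - ε) * pk n k) ^ k ≤ mw n k / ln n ∧ mw n k / ln n ≤ ((1 + ε) * pk n k) ^ k := by
  obtain ⟨e, he⟩ : ∃ e, e = ε / 8 := ⟨_, rfl⟩
  have he0 : 0 < e := by rw [he]; linarith
  obtain ⟨C1, hC1, hup⟩ := mean_up he0 (by linarith)
  obtain ⟨C2, n₀, hC2, hn₀, hlow⟩ := mean_low he0 (by linarith)
  obtain ⟨C, hC⟩ : ∃ C, C = 4 * (C1 + C2) / ε := ⟨_, rfl⟩
  have hC0 : 0 < C := by rw [hC]; positivity
  refine ⟨C, n₀, hC0, hn₀, ?_⟩
  intro n hn k hk hbig
  have hk0 : (0 : ℝ) < k := by exact_mod_cast hk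
  have hL0 : 0 ≤ Real.log (n : ℝ) ^ 2 := sq_nonneg _
  have hCL : C1 * Real.log n ^ 2 + C2 * Real.log n ^ 2 ≤ ε / 4 * k := by
    have h1 := mul_le_mul_of_nonneg_left hbig (show 0 ≤ ε / 4 by linarith)
    have e1 : ε / 4 * (C * Real.log n ^ 2) = C1 * Real.log n ^ 2 + C2 * Real.log n ^ 2 := by
      rw [hC]
      field_simp
    rwa [e1] at h1
  have b1 := mul_nonneg hC1.le hL0
  have b2 := mul_nonneg hC2.le hL0
  have hp := pk_nonneg (n := n) hk
  constructor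
  · obtain ⟨K, -, hln⟩ := Y981.L2.ln_le
    have hL := (hln n (by omega)).1
    have hmw := mw_nonneg (show 1 ≤ n by omega) k
    obtain ⟨Y, hY⟩ : ∃ Y, Y = mw n k / ln n := ⟨_, rfl⟩
    have hY0 : 0 ≤ Y := by rw [hY]; positivity
    obtain ⟨y, hy⟩ : ∃ y, y = Y ^ ((k : ℝ)⁻¹) := ⟨_, rfl⟩
    have hy0 : 0 ≤ y := by rw [hy]; positivity
    have hyk : y ^ k = Y := by rw [hy]; exact Real.rpow_inv_natCast_pow hY0 (by omega)
    rw [← hY, ← hyk]
    apply pow_le_pow_left₀ (mul_nonneg (by linarith) hp)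
    have h1 : pk n k ≤ y / (1 - ε) := by
      apply csSup_le ((nonempty_Ioo.2 (by norm_num : (0 : ℝ) < 1 / 4)).image _)
      rintro _ ⟨u, ⟨hu0, hu1⟩, rfl⟩
      rw [le_div_iff₀ (by linarith)]
      have h2 := hlow n hn k hk u hu0 hu1
      rw [← hY, ← hyk] at h2
      obtain ⟨x, hx⟩ : ∃ x, x = u * (n : ℝ) ^ 2 * Real.exp (-(n / k * RR u)) := ⟨_, rfl⟩
      have hx0 : 0 < x := by
        have hn0 : (0 : ℝ) < n := by
          have : 1 ≤ n := by omega
          exact_mod_cast this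
        rw [hx]
        positivity
      simp only
      rw [← hx] at h2 ⊢
      apply le_of_pow_le_pow_left₀ (by omega : k ≠ 0) hy0
      refine le_trans ?_ h2
      have h3 : 1 - ε ≤ Real.exp (-ε) := by
        have := Real.add_one_le_exp (-ε)
        linarith
      have h4 : (x * (1 - ε)) ^ k ≤ (x * Real.exp (-ε)) ^ k :=
        pow_le_pow_left₀ (mul_nonneg hx0.le (by linarith)) (mul_le_mul_of_nonneg_left h3 hx0.le) k
      refine h4.trans ?_
      have h5 : (x * Real.exp (-e)) ^ k ≤ (x / (1 + e)) ^ k := by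
        apply pow_le_pow_left₀ (by positivity)
        rw [le_div_iff₀ (by linarith), mul_assoc]
        have h6 := Real.add_one_le_exp e
        have h7 : Real.exp (-e) * (1 + e) ≤ Real.exp (-e) * Real.exp e :=
          mul_le_mul_of_nonneg_left (by linarith) (Real.exp_pos _).le
        rw [← Real.exp_add, neg_add_cancel, Real.exp_zero] at h7
        have := mul_le_mul_of_nonneg_left h7 hx0.le
        linarith
      refine le_trans ?_ (mul_le_mul_of_nonneg_left h5 (Real.exp_pos _).le)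
      rw [mul_pow, mul_pow, ← Real.exp_nat_mul, ← Real.exp_nat_mul, mul_left_comm, ← Real.exp_add]
      apply mul_le_mul_of_nonneg_left _ (by positivity)
      apply Real.exp_le_exp.2
      have h8 : (k : ℝ) * e = ε / 8 * k := by rw [he]; ring
      have h9 : 0 ≤ ε * k := by positivity
      linarith
    rw [le_div_iff₀ (by linarith)] at h1
    linarith
  · have h1 := hup n (by omega) k hk (pk n k) hp (fun u hu0 hu1 => le_pk hk hu0 hu1)
    refine h1.trans ?_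
    have h2 := inv_exp he0.le (by linarith : e ≤ 1 / 2)
    have h3 : (pk n k / (1 - e)) ^ k ≤ (pk n k * Real.exp (2 * e)) ^ k := by
      apply pow_le_pow_left₀ (div_nonneg hp (by linarith))
      rw [div_eq_mul_one_div]
      exact mul_le_mul_of_nonneg_left h2 hp
    refine (mul_le_mul_of_nonneg_left h3 (Real.exp_pos _).le).trans ?_
    have h4 : (pk n k * Real.exp (ε / 2)) ^ k ≤ ((1 + ε) * pk n k) ^ k := by
      apply pow_le_pow_left₀ (mul_nonneg hp (Real.exp_pos _).le)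
      have h5 := exp_le_lin (x := ε / 2) (by linarith) (by linarith)
      have := mul_le_mul_of_nonneg_left h5 hp
      linarith
    refine le_trans ?_ h4
    rw [mul_pow, mul_pow, ← Real.exp_nat_mul, ← Real.exp_nat_mul, mul_left_comm, ← Real.exp_add]
    apply mul_le_mul_of_nonneg_left _ (pow_nonneg hp _)
    apply Real.exp_le_exp.2
    have h8 : (k : ℝ) * (2 * e) = ε / 4 * k := by rw [he]; ring
    linarith

/-- Jensen's inequality -/
theorem mean_pow {n : ℕ} (hn : 2 ≤ n) (k : ℕ) : (mw n 1 / ln n) ^ k ≤ mw n k / ln n := by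
  have hn1 : 1 ≤ n := by omega
  obtain ⟨K, -, hln⟩ := Y981.L2.ln_le
  have hL := (hln n hn).1
  have hcard : (ln n : ℝ) = (loops_finite hn1).toFinset.card := by
    have e2 : (ln n : ℝ) = ({f : ZMod (2 * n) → ℤ × ℤ | IsLoop (2 * n) f}.ncard : ℝ) := rfl
    rw [e2, Set.ncard_eq_toFinset_card _ (loops_finite hn1)]
  have h := Real.pow_arith_mean_le_arith_mean_pow (loops_finite hn1).toFinset
    (fun _ => 1 / (ln n : ℝ)) (fun f => (area (2 * n) f : ℝ)) (fun _ _ => by positivity)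
    (by
      rw [Finset.sum_const, nsmul_eq_mul, ← hcard]
      field_simp) (fun _ _ => by positivity) k
  rw [← Finset.mul_sum, ← Finset.mul_sum] at h
  rw [mw_eq hn1, mw_eq hn1]
  simp only [pow_one]
  rw [div_eq_inv_mul, div_eq_inv_mul, ← one_div]
  exact h

theorem mean_le {ε : ℝ} (hε : 0 < ε) (hε1 : ε < 1) : ∃ (C : ℝ) (n₀ : ℕ), 0 < C ∧ 2 ≤ n₀ ∧
    ∀ n : ℕ, n₀ ≤ n → ∀ k : ℕ, 1 ≤ k → C * Real.log n ^ 2 ≤ k →
      mw n 1 / ln n ≤ (1 + ε) * pk n k := by
  obtain ⟨C, n₀, hC, hn₀, h⟩ := mom_fixed hε hε1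
  refine ⟨C, n₀, hC, hn₀, ?_⟩
  intro n hn k hk hbig
  have h1 := (mean_pow (show 2 ≤ n by omega) k).trans (h n hn k hk hbig).2
  exact le_of_pow_le_pow_left₀ (by omega) (mul_nonneg (by linarith) (pk_nonneg hk)) h1

theorem g_mono {E F : ℝ} (hF : 0 < F) (h : E ≤ F) : g E ≤ g F := by
  unfold g
  apply Real.sqrt_le_sqrt
  unfold V
  exact measureReal_mono (Kc_mono h) (WF.Kc_props hF).2.1.measure_lt_top.ne

/-- **moments at fixed fugacity** -/
theorem mom_gc {ε E₁ : ℝ} (hε : 0 < ε) (hε1 : ε < 1) (hE₁ : 0 < E₁) : ∃ C : ℝ, 0 < C ∧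
    ∀ z : ℝ, 0 < z → 0 < -Real.log (z * mu) → -Real.log (z * mu) ≤ E₁ → ∀ k : ℕ, 1 ≤ k →
      C * Lm (-Real.log (z * mu)) ^ 2 ≤ k → Summable (mt z k) ∧
      (1 - ε) ^ k * (((2 * k).factorial : ℝ) / (2 * g (-Real.log (z * mu))) ^ (2 * k)) ≤ Mz z k ∧
      Mz z k ≤
        (1 + ε) ^ k * (((2 * k).factorial : ℝ) / (2 * g (-Real.log (z * mu))) ^ (2 * k)) := by
  obtain ⟨e, he⟩ : ∃ e, e = ε / 16 := ⟨_, rfl⟩
  have he0 : 0 < e := by rw [he]; linarith
  obtain ⟨C1, hC1, hup⟩ := Mz_up he0 (by linarith)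
  obtain ⟨C2, s₀, hC2, hs₀, hlow⟩ := Mz_low he0 (by linarith)
  have hg1 := g_pos hE₁
  obtain ⟨C, hC⟩ : ∃ C, C = 4 * (C1 + C2) / ε + 500 / ε ^ 2 + 3 * (s₀ * ((1 + e) * g E₁)) :=
    ⟨_, rfl⟩
  have c1 : 0 < 4 * (C1 + C2) / ε := by positivity
  have c2 : 0 < 500 / ε ^ 2 := by positivity
  have c3 : 0 < 3 * (s₀ * ((1 + e) * g E₁)) := by positivity
  have hC0 : 0 < C := by rw [hC]; positivity
  refine ⟨C, hC0, ?_⟩
  intro z hz hE hEE k hk hbig
  obtain ⟨u1, u2⟩ := hup z hz hE k hk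
  have hLL := Lm_sq hE
  obtain ⟨E, hEd⟩ : ∃ E, E = -Real.log (z * mu) := ⟨_, rfl⟩
  have hz' := hlow z hz hE k hk
  rw [← hEd] at hE hEE hbig u2 hLL hz' ⊢
  have hk0 : (0 : ℝ) < k := by exact_mod_cast hk
  have hg := g_pos hE
  obtain ⟨L, hLd⟩ : ∃ L, L = Lm E ^ 2 := ⟨_, rfl⟩
  rw [← hLd] at hbig u2 hLL hz'
  have hL0 : 0 ≤ L := by linarith
  have d1 := mul_nonneg c1.le hL0
  have d2 : 500 / ε ^ 2 * 0.47 ≤ 500 / ε ^ 2 * L := mul_le_mul_of_nonneg_left hLL c2.le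
  have d3 : 3 * (s₀ * ((1 + e) * g E₁)) * 0.47 ≤ 3 * (s₀ * ((1 + e) * g E₁)) * L :=
    mul_le_mul_of_nonneg_left hLL c3.le
  have hsum : 4 * (C1 + C2) / ε * L + 500 / ε ^ 2 * L + 3 * (s₀ * ((1 + e) * g E₁)) * L ≤ k := by
    refine le_of_eq_of_le ?_ hbig
    rw [hC]
    ring
  have hCL : C1 * L + C2 * L ≤ ε / 4 * k := by
    have h1 : 4 * (C1 + C2) / ε * L ≤ k := by linarith
    have h2 := mul_le_mul_of_nonneg_left h1 (show 0 ≤ ε / 4 by linarith)
    have e1 : ε / 4 * (4 * (C1 + C2) / ε * L) = C1 * L + C2 * L := by field_simp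
    rwa [e1] at h2
  have hk2 : 200 / ε ^ 2 ≤ k := by
    have e1 : 500 / ε ^ 2 * 0.47 = 235 / ε ^ 2 := by ring
    rw [e1] at d2
    have e2 : 200 / ε ^ 2 ≤ 235 / ε ^ 2 := by gcongr; norm_num
    linarith
  have hs : s₀ * ((1 + e) * g E) ≤ k := by
    have h1 : s₀ * ((1 + e) * g E) ≤ s₀ * ((1 + e) * g E₁) := by
      have := g_mono hE₁ hEE
      gcongr
    have h2 : 0 < s₀ * ((1 + e) * g E₁) := by positivity
    linarith
  have b1 := mul_nonneg hC1.le hL0
  have b2 := mul_nonneg hC2.le hL0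
  obtain ⟨D, hD⟩ : ∃ D : ℝ, D = ((2 * k).factorial : ℝ) / (2 * g E) ^ (2 * k) := ⟨_, rfl⟩
  have hD0 : 0 < D := by rw [hD]; positivity
  rw [← hD]
  refine ⟨u1, ?_, ?_⟩
  · have h1 := hz' hs
    have e1 : ((2 * k).factorial : ℝ) / (2 * (1 + e) * g E) ^ (2 * k) =
        D * (1 / (1 + e)) ^ (2 * k) := by
      have : 2 * (1 + e) * g E = 2 * g E * (1 + e) := by ring
      rw [hD, this, mul_pow, one_div, inv_pow]
      field_simp
    rw [e1] at h1
    have h2 : Real.exp (-e) ≤ 1 / (1 + e) := by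
      rw [le_div_iff₀ (by linarith)]
      have h6 := Real.add_one_le_exp e
      have h7 : Real.exp (-e) * (1 + e) ≤ Real.exp (-e) * Real.exp e :=
        mul_le_mul_of_nonneg_left (by linarith) (Real.exp_pos _).le
      rwa [← Real.exp_add, neg_add_cancel, Real.exp_zero] at h7
    have h3 := pow_le_pow_left₀ (Real.exp_pos _).le h2 (2 * k)
    rw [← Real.exp_nat_mul] at h3
    have h4 : 6 * (k : ℝ) ≤ Real.exp (ε / 4 * k) := by
      have h5 := Real.quadratic_le_exp_of_nonneg (show 0 ≤ ε / 4 * (k : ℝ) by positivity)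
      have h6 : 6 * (k : ℝ) ≤ (ε / 4 * k) ^ 2 / 2 := by
        rw [div_le_iff₀ (by positivity)] at hk2
        have h7 := mul_le_mul_of_nonneg_left hk2 hk0.le
        have e2 : (ε / 4 * k) ^ 2 / 2 = k * (k * ε ^ 2) / 32 := by ring
        rw [e2]
        linarith
      have : 0 ≤ ε / 4 * (k : ℝ) := by positivity
      linarith
    have h5 : Real.exp (-(C2 * L)) * (D * Real.exp (((2 * k : ℕ) : ℝ) * -e)) ≤
        Real.exp (ε / 4 * k) * Mz z k := by
      have hM0 : 0 ≤ Mz z k := tsum_nonneg (mt_nonneg hz k)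
      refine le_trans ?_ (h1.trans (mul_le_mul_of_nonneg_right h4 hM0))
      apply mul_le_mul_of_nonneg_left _ (Real.exp_pos _).le
      exact mul_le_mul_of_nonneg_left h3 hD0.le
    have h6 : Real.exp (-(ε / 4 * k)) * (Real.exp (-(C2 * L)) *
        (D * Real.exp (((2 * k : ℕ) : ℝ) * -e))) ≤ Mz z k := by
      have := mul_le_mul_of_nonneg_left h5 (Real.exp_pos (-(ε / 4 * k))).le
      rwa [← mul_assoc (Real.exp (-(ε / 4 * (k : ℝ)))) (Real.exp (ε / 4 * k)), ← Real.exp_add,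
        neg_add_cancel, Real.exp_zero, one_mul] at this
    refine le_trans ?_ h6
    have h7 : (1 - ε) ^ k ≤ Real.exp (-(ε * k)) := by
      have h8 : 1 - ε ≤ Real.exp (-ε) := by
        have := Real.add_one_le_exp (-ε)
        linarith
      have h9 := pow_le_pow_left₀ (by linarith) h8 k
      rw [← Real.exp_nat_mul] at h9
      refine h9.trans (le_of_eq ?_)
      congr 1
      ring
    refine (mul_le_mul_of_nonneg_right h7 hD0.le).trans ?_
    have e3 : Real.exp (-(ε / 4 * k)) * (Real.exp (-(C2 * L)) *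
        (D * Real.exp (((2 * k : ℕ) : ℝ) * -e))) =
        Real.exp (-(ε / 4 * k) + (-(C2 * L) + ((2 * k : ℕ) : ℝ) * -e)) * D := by
      rw [Real.exp_add, Real.exp_add]
      ring
    rw [e3]
    apply mul_le_mul_of_nonneg_right _ hD0.le
    apply Real.exp_le_exp.2
    have e4 : ((2 * k : ℕ) : ℝ) * -e = -(ε / 8 * k) := by
      rw [he]
      push_cast
      ring
    rw [e4]
    have : 0 ≤ ε * (k : ℝ) := by positivity
    linarith
  · refine u2.trans ?_
    have e1 : ((2 * k).factorial : ℝ) / (2 * (1 - e) * g E) ^ (2 * k) =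
        D * (1 / (1 - e)) ^ (2 * k) := by
      have : 2 * (1 - e) * g E = 2 * g E * (1 - e) := by ring
      have h0 : 0 < 1 - e := by linarith
      rw [hD, this, mul_pow, one_div, inv_pow]
      field_simp
    rw [e1]
    have h2 := inv_exp he0.le (by linarith : e ≤ 1 / 2)
    have h3 := pow_le_pow_left₀ (one_div_nonneg.2 (by linarith)) h2 (2 * k)
    rw [← Real.exp_nat_mul] at h3
    have h4 : Real.exp (C1 * L) * (D * (1 / (1 - e)) ^ (2 * k)) ≤
        Real.exp (C1 * L) * (D * Real.exp (((2 * k : ℕ) : ℝ) * (2 * e))) :=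
      mul_le_mul_of_nonneg_left (mul_le_mul_of_nonneg_left h3 hD0.le) (Real.exp_pos _).le
    refine h4.trans ?_
    have h5 : Real.exp (ε / 2 * k) ≤ (1 + ε) ^ k := by
      have h8 := exp_le_lin (x := ε / 2) (by linarith) (by linarith)
      have h9 := pow_le_pow_left₀ (Real.exp_pos _).le h8 k
      rw [← Real.exp_nat_mul] at h9
      have e5 : 1 + 2 * (ε / 2) = 1 + ε := by ring
      rw [e5] at h9
      refine le_of_eq_of_le ?_ h9
      congr 1
      ring
    refine le_trans ?_ (mul_le_mul_of_nonneg_right h5 hD0.le)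
    have e3 : Real.exp (C1 * L) * (D * Real.exp (((2 * k : ℕ) : ℝ) * (2 * e))) =
        Real.exp (C1 * L + ((2 * k : ℕ) : ℝ) * (2 * e)) * D := by
      rw [Real.exp_add]
      ring
    rw [e3]
    apply mul_le_mul_of_nonneg_right _ hD0.le
    apply Real.exp_le_exp.2
    have e4 : ((2 * k : ℕ) : ℝ) * (2 * e) = ε / 4 * k := by
      rw [he]
      push_cast
      ring
    rw [e4]
    linarith

end Pool.Agent.H26.GC
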