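import Pool.Agent.H26.GC.Mom3

/-!
Exponential moments of the area at fixed perimeter, for all pressures.
-/

set_option autoImplicit false

open MeasureTheory Set Filter Topology Metric
open scoped ENNReal Pointwise

namespace Pool.Agent.H26.GC

open Pool.Agent.T6.H44 Pool.Agent.T6.H44.PG
open Pool.Agent.TH795.EP2 (q)
open Pool.Agent.Y981.L2 H981 Pool.Agent.H26.WS Pool.Agent.H26.UN
open Pool.Agent.H26.WF (Kc V g rho pr RR)

/-- the sum of the exponentials of the areas of the loops -/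
noncomputable def ew (n : ℕ) (s : ℝ) : ℝ :=
  ∑ᶠ f ∈ {f : ZMod (2 * n) → ℤ × ℤ | IsLoop (2 * n) f}, Real.exp (s * area (2 * n) f / n)

theorem ew_eq {n : ℕ} (hn : 1 ≤ n) (s : ℝ) :
    ew n s = ∑ f ∈ (loops_finite hn).toFinset, Real.exp (s * area (2 * n) f / n) := by
  unfold ew
  rw [finsum_mem_eq_finite_toFinset_sum _ (loops_finite hn)]

theorem ew_le {n : ℕ} (hn : 1 ≤ n) {s : ℝ} {B : ℝ}
    (h : ∀ a : ℕ, Real.exp (s * a / n) * ((PQ (Ar a) n).ncard : ℝ) ≤ B) :
    ew n s ≤ ((n : ℝ) ^ 2 + 1) * B := by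
  classical
  rw [ew_eq hn]
  have hmap : ∀ f ∈ (loops_finite hn).toFinset, area (2 * n) f ∈ Finset.range (n ^ 2 + 1) := by
    intro f hf
    rw [Set.Finite.mem_toFinset] at hf
    have h1 := WF.area_quarter hn hf
    have h2 : (area (2 * n) f : ℝ) ≤ ((n ^ 2 : ℕ) : ℝ) := by
      push_cast
      have : (0 : ℝ) ≤ (n : ℝ) ^ 2 := by positivity
      linarith
    rw [Finset.mem_range]
    have h3 : area (2 * n) f ≤ n ^ 2 := by exact_mod_cast h2
    omega
  rw [← Finset.sum_fiberwise_of_maps_to hmap]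
  have hle : ∀ a ∈ Finset.range (n ^ 2 + 1),
      ∑ f ∈ (loops_finite hn).toFinset with area (2 * n) f = a,
        Real.exp (s * area (2 * n) f / n) ≤ B := by
    intro a _
    refine le_trans ?_ (h a)
    have h1 : ∑ f ∈ (loops_finite hn).toFinset with area (2 * n) f = a,
        Real.exp (s * area (2 * n) f / n) =
        ∑ f ∈ (loops_finite hn).toFinset with area (2 * n) f = a, Real.exp (s * a / n) := by
      apply Finset.sum_congr rfl
      intro f hf
      rw [Finset.mem_filter] at hf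
      rw [hf.2]
    rw [h1, Finset.sum_const, nsmul_eq_mul, mul_comm]
    apply mul_le_mul_of_nonneg_left _ (Real.exp_pos _).le
    have h2 : DecidablePred (Ar (a : ℝ) n) := Classical.decPred _
    rw [card_PQ hn]
    have h3 : ((loops_finite hn).toFinset.filter (fun f => area (2 * n) f = a)).card ≤
        ((loops_finite hn).toFinset.filter (Ar (a : ℝ) n)).card := by
      apply Finset.card_le_card
      intro f hf
      rw [Finset.mem_filter] at hf ⊢
      refine ⟨hf.1, ?_⟩
      show (a : ℝ) ≤ (area (2 * n) f : ℝ)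
      rw [hf.2]
    exact_mod_cast h3
  refine (Finset.sum_le_sum hle).trans ?_
  rw [Finset.sum_const, Finset.card_range, nsmul_eq_mul]
  push_cast
  exact le_rfl

theorem le_ew {n : ℕ} (hn : 1 ≤ n) {s : ℝ} (hs : 0 ≤ s) (A : ℝ) :
    Real.exp (s * A / n) * ((PQ (Ar A) n).ncard : ℝ) ≤ ew n s := by
  classical
  rw [ew_eq hn, card_PQ hn, mul_comm, ← nsmul_eq_mul, ← Finset.sum_const]
  refine (Finset.sum_le_sum (fun f hf => ?_)).trans (Finset.sum_le_sum_of_subset_of_nonneg
    (Finset.filter_subset (Ar A n) _) (fun f _ _ => (Real.exp_pos _).le))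
  rw [Finset.mem_filter] at hf
  apply Real.exp_le_exp.2
  have h1 : A ≤ (area (2 * n) f : ℝ) := hf.2
  gcongr

/-- the largest value of `s u - R(u)` -/
noncomputable def Fs (s : ℝ) : ℝ := sSup ((fun u : ℝ => s * u - RR u) '' Ioo 0 (1 / 4))

theorem le_Fs {s : ℝ} (hs : 0 ≤ s) {u : ℝ} (h0 : 0 < u) (h1 : u < 1 / 4) :
    s * u - RR u ≤ Fs s := by
  unfold Fs
  refine le_csSup ?_ (mem_image_of_mem _ (show u ∈ Ioo (0 : ℝ) (1 / 4) from ⟨h0, h1⟩))
  refine ⟨s * (1 / 4), ?_⟩
  rintro _ ⟨v, ⟨hv0, hv1⟩, rfl⟩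
  have h2 := RR_nonneg hv0 hv1
  have h3 := mul_le_mul_of_nonneg_left hv1.le hs
  simp only
  linarith

theorem Fs_nonneg {s : ℝ} (hs : 0 ≤ s) : 0 ≤ Fs s := by
  by_contra hcon
  push Not at hcon
  have h1 := WF.RR_cont 0 ⟨le_rfl, by norm_num⟩
  have h2 : Tendsto RR (𝓝[Icc 0 (1 / 4)] 0) (𝓝 0) := by
    have := h1.tendsto
    rwa [WF.RR_zero] at this
  have h3 : Tendsto RR (𝓝[Ioo 0 (1 / 4)] 0) (𝓝 0) :=
    h2.mono_left (nhdsWithin_mono _ Ioo_subset_Icc_self)
  have h4 : ∀ᶠ u in 𝓝[Ioo 0 (1 / 4)] (0 : ℝ), RR u < -Fs s := h3.eventually_lt_const (by linarith)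
  have hne : (𝓝[Ioo 0 (1 / 4)] (0 : ℝ)).NeBot := by
    rw [← mem_closure_iff_nhdsWithin_neBot, closure_Ioo (by norm_num)]
    exact ⟨le_rfl, by norm_num⟩
  obtain ⟨u, hu, hu0, hu1⟩ := (h4.and self_mem_nhdsWithin).exists
  have h5 := le_Fs hs hu0 hu1
  have h6 := mul_nonneg hs hu0.le
  linarith

theorem Fs_mono {s t : ℝ} (ht : 0 ≤ t) (h : s ≤ t) : Fs s ≤ Fs t := by
  apply csSup_le ((nonempty_Ioo.2 (by norm_num : (0 : ℝ) < 1 / 4)).image _)
  rintro _ ⟨u, ⟨hu0, hu1⟩, rfl⟩
  refine le_trans ?_ (le_Fs ht hu0 hu1)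
  have := mul_le_mul_of_nonneg_right h hu0.le
  simp only
  linarith

/-- **exponential moments** -/
theorem mgf_fixed {ε : ℝ} (hε : 0 < ε) (hε1 : ε < 1) : ∃ (C : ℝ) (n₀ : ℕ), 0 < C ∧ 2 ≤ n₀ ∧
    ∀ n : ℕ, n₀ ≤ n → ∀ s : ℝ, 0 < s →
      Real.exp (n * Fs ((1 - ε) * s) - C * Real.log n ^ 2) ≤ ew n s / ln n ∧
      ew n s / ln n ≤ Real.exp (n * Fs ((1 + ε) * s) + C * Real.log n ^ 2) := by
  obtain ⟨e, he⟩ : ∃ e, e = ε / 2 := ⟨_, rfl⟩
  have he0 : 0 < e := by rw [he]; linarith
  have he1 : e < 1 / 2 := by rw [he]; linarith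
  obtain ⟨C1, hC1, hup⟩ := unif_up he0 (by linarith)
  obtain ⟨C2, n₀, hC2, hn₀, hlow⟩ := unif_low he0 (by linarith)
  obtain ⟨K, -, hln⟩ := Y981.L2.ln_le
  refine ⟨C1 + C2 + 5, n₀, by linarith, hn₀, ?_⟩
  intro n hn s hs
  have hn2 : 2 ≤ n := by omega
  have hn1 : 1 ≤ n := by omega
  have hn0 : (0 : ℝ) < n := by exact_mod_cast hn1
  have hL := (hln n hn2).1
  have hL0 : 0 ≤ Real.log (n : ℝ) ^ 2 := sq_nonneg _
  have b1 := mul_nonneg hC1.le hL0
  have b2 := mul_nonneg hC2.le hL0
  have he2 : 0 < 1 - e := by linarith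
  have hesq : e * e ≤ 1 / 2 * e := mul_le_mul_of_nonneg_right he1.le he0.le
  constructor
  · have hpos : 0 < ew n s / ln n := by
      have h0 := le_ew hn1 hs.le 0
      rw [card_Ar hn2] at h0
      have h1 : par n 0 = 1 := by
        unfold par
        have e2 : (ln n : ℝ) = ({f : ZMod (2 * n) → ℤ × ℤ | IsLoop (2 * n) f}.ncard : ℝ) := rfl
        rw [e2] at hL
        simp only [Nat.cast_nonneg, and_true]
        exact div_self hL.ne'
      rw [h1, one_mul] at h0
      have : 0 < ew n s := lt_of_lt_of_le (by positivity) h0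
      positivity
    rw [← Real.le_log_iff_exp_le hpos]
    have h1 : Fs ((1 - ε) * s) ≤ (Real.log (ew n s / ln n) + C2 * Real.log n ^ 2) / n := by
      apply csSup_le ((nonempty_Ioo.2 (by norm_num : (0 : ℝ) < 1 / 4)).image _)
      rintro _ ⟨u, ⟨hu0, hu1⟩, rfl⟩
      rw [le_div_iff₀ hn0]
      obtain ⟨v, hv⟩ : ∃ v, v = u / (1 + e) := ⟨_, rfl⟩
      have hv0 : 0 < v := by rw [hv]; positivity
      have hvu : (1 + e) * v = u := by rw [hv]; field_simp
      have h2 := hlow n hn v hv0 (by rw [hvu]; exact hu1)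
      rw [hvu] at h2
      have h3 := le_ew hn1 hs.le (v * (n : ℝ) ^ 2)
      rw [card_Ar hn2] at h3
      have e1 : s * (v * (n : ℝ) ^ 2) / n = s * v * n := by field_simp
      rw [e1, ← mul_assoc, ← le_div_iff₀ hL] at h3
      have h4 := (mul_le_mul_of_nonneg_left h2 (Real.exp_pos (s * v * n)).le).trans h3
      rw [← Real.exp_add, ← Real.le_log_iff_exp_le hpos] at h4
      have h5 : (1 - ε) * s * u ≤ s * v := by
        rw [← hvu]
        have e2 : (1 - ε) * s * ((1 + e) * v) = (1 - e - 2 * (e * e)) * (s * v) := by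
          have : ε = 2 * e := by rw [he]; ring
          rw [this]
          ring
        rw [e2]
        have h6 : 0 ≤ (e + 2 * (e * e)) * (s * v) := by positivity
        have e3 : (1 - e - 2 * (e * e)) * (s * v) = s * v - (e + 2 * (e * e)) * (s * v) := by ring
        rw [e3]
        linarith
      have h7 := mul_le_mul_of_nonneg_right h5 hn0.le
      simp only
      have e4 : ((1 - ε) * s * u - RR u) * n = (1 - ε) * s * u * n - n * RR u := by ring
      rw [e4]
      linarith
    rw [le_div_iff₀ hn0] at h1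
    have e5 : (C1 + C2 + 5) * Real.log (n : ℝ) ^ 2 =
      C1 * Real.log n ^ 2 + C2 * Real.log n ^ 2 + 5 * Real.log n ^ 2 := by ring
    rw [e5]
    linarith
  · have hs' : s / (1 - e) ≤ (1 + ε) * s := by
      rw [div_le_iff₀ he2]
      have e2 : (1 + ε) * s * (1 - e) = s + (e - 2 * (e * e)) * s := by
        have : ε = 2 * e := by rw [he]; ring
        rw [this]
        ring
      rw [e2]
      have : 0 ≤ (e - 2 * (e * e)) * s := mul_nonneg (by linarith) hs.le
      linarith
    have hFm := Fs_mono (by positivity : 0 ≤ (1 + ε) * s) hs'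
    have hF0 := Fs_nonneg (by positivity : 0 ≤ (1 + ε) * s)
    obtain ⟨B, hB⟩ : ∃ B, B = Real.exp (n * Fs ((1 + ε) * s) + C1 * Real.log n ^ 2) * ln n :=
      ⟨_, rfl⟩
    have hB0 : 0 < B := by rw [hB]; positivity
    have key := ew_le hn1 (s := s) (B := B) (by
      intro a
      rw [card_Ar hn2]
      rcases Nat.eq_zero_or_pos a with h0 | h0
      · have h1 : par n ((a : ℕ) : ℝ) ≤ 1 := by
          unfold par
          apply div_le_one_of_le₀ _ (by positivity)
          have h2 := Set.ncard_le_ncard (s := {f : ZMod (2 * n) → ℤ × ℤ | IsLoop (2 * n) f ∧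
            (a : ℝ) ≤ area (2 * n) f}) (fun f hf => hf.1) (loops_finite hn1)
          exact_mod_cast h2
        have h2 : par n ((a : ℕ) : ℝ) * ln n ≤ 1 * ln n := mul_le_mul_of_nonneg_right h1 hL.le
        have h3 : Real.exp (s * (a : ℝ) / n) = 1 := by rw [h0]; simp
        rw [h3, one_mul, hB]
        refine h2.trans (mul_le_mul_of_nonneg_right ?_ hL.le)
        apply Real.one_le_exp
        have := mul_nonneg hn0.le hF0
        linarith
      · have ha0 : (0 : ℝ) < a := by exact_mod_cast h0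
        rcases le_or_gt (a : ℝ) (1 / 4 * (n : ℝ) ^ 2) with h4 | h4
        · obtain ⟨v, hv⟩ : ∃ v, v = (a : ℝ) / (n : ℝ) ^ 2 := ⟨_, rfl⟩
          have hv0 : 0 < v := by rw [hv]; positivity
          have hv4 : v ≤ 1 / 4 := by
            rw [hv, div_le_iff₀ (by positivity)]
            exact h4
          have hvn : v * (n : ℝ) ^ 2 = a := by rw [hv]; field_simp
          have h1 := hup n hn2 v hv0 hv4
          rw [hvn] at h1
          have hu0 : 0 < (1 - e) * v := mul_pos he2 hv0
          have hu4 : (1 - e) * v < 1 / 4 := by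
            have := mul_pos he0 hv0
            linarith
          have h2 := (le_Fs (div_nonneg hs.le he2.le) hu0 hu4).trans hFm
          have e1 : s / (1 - e) * ((1 - e) * v) = s * v := by field_simp
          rw [e1] at h2
          have h3 := mul_le_mul_of_nonneg_left h2 hn0.le
          have e3 : s * (a : ℝ) / n = n * (s * v) := by
            rw [← hvn]
            field_simp
          have h5 : Real.exp (s * (a : ℝ) / n) * (par n (a : ℝ) * ln n) ≤
              Real.exp (s * (a : ℝ) / n) *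
                (Real.exp (-(n * RR ((1 - e) * v)) + C1 * Real.log n ^ 2) * ln n) :=
            mul_le_mul_of_nonneg_left (mul_le_mul_of_nonneg_right h1 hL.le) (Real.exp_pos _).le
          refine h5.trans ?_
          rw [hB, ← mul_assoc, ← Real.exp_add]
          apply mul_le_mul_of_nonneg_right _ hL.le
          apply Real.exp_le_exp.2
          rw [e3]
          have e4 : n * (s * v - RR ((1 - e) * v)) = n * (s * v) - n * RR ((1 - e) * v) := by ring
          rw [e4] at h3
          linarith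
        · have hempty : PQ (Ar (a : ℝ)) n = ∅ := by
            rw [Set.eq_empty_iff_forall_notMem]
            rintro f ⟨hf, hA⟩
            have h1 := WF.area_quarter hn1 hf
            have hA' : (a : ℝ) ≤ (area (2 * n) f : ℝ) := hA
            linarith
          have h1 := card_Ar hn2 (a : ℝ)
          rw [hempty, Set.ncard_empty, Nat.cast_zero] at h1
          rw [← h1, mul_zero]
          exact hB0.le)
    rw [div_le_iff₀ hL]
    refine key.trans ?_
    refine (mul_le_mul_of_nonneg_right (sq_one hn2) hB0.le).trans ?_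
    rw [hB, ← mul_assoc, ← Real.exp_add]
    apply mul_le_mul_of_nonneg_right _ hL.le
    apply Real.exp_le_exp.2
    have e5 : (C1 + C2 + 5) * Real.log (n : ℝ) ^ 2 =
      C1 * Real.log n ^ 2 + C2 * Real.log n ^ 2 + 5 * Real.log n ^ 2 := by ring
    rw [e5]
    linarith

end Pool.Agent.H26.GC
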