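import Pool.Agent.H26.GC.Cond

/-!
The polygons weighted by a fugacity: the laws of the area and of the perimeter.
-/

set_option autoImplicit false

open MeasureTheory Set Filter Topology Metric
open scoped ENNReal Pointwise

namespace Pool.Agent.H26.GC

open Pool.Agent.T6.H44 Pool.Agent.T6.H44.PG
open Pool.Agent.Y981.L2 H981 Pool.Agent.H26.WS Pool.Agent.H26.UN
open Pool.Agent.H26.WF (Kc V g rho pr RR)

theorem Lm_le {E E' h : ℝ} (hE : 0 < E) (h0 : 0 < h) (h1 : h ≤ 1) (hE' : h * E ≤ E') :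
    Lm E' ≤ (1 + 2 * -Real.log h) * Lm E := by
  have hhE : 0 < h * E := mul_pos h0 hE
  have hl : Real.log h ≤ 0 := Real.log_nonpos h0.le h1
  have hL := Lm_pos hE
  have h2 : Lm E' ≤ Lm E - Real.log h := by
    unfold Lm
    rw [← Real.log_div (by positivity) h0.ne']
    apply Real.log_le_log
    · have : 0 < 1 / E' := by
        have : 0 < E' := by linarith
        positivity
      linarith
    · rw [le_div_iff₀ h0]
      have a1 : 1 / E' ≤ 1 / (h * E) := one_div_le_one_div_of_le hhE hE'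
      have a2 : 1 / (h * E) * h = 1 / E := by field_simp
      have a3 := mul_le_mul_of_nonneg_right a1 h0.le
      rw [a2] at a3
      linarith
  have h3 : -Real.log h * 1 ≤ -Real.log h * (2 * Lm E) :=
    mul_le_mul_of_nonneg_left (by linarith) (by linarith)
  linarith

theorem Lm_sq_le {E E' h : ℝ} (hE : 0 < E) (h0 : 0 < h) (h1 : h ≤ 1) (hE' : h * E ≤ E') :
    Lm E' ^ 2 ≤ (1 + 2 * -Real.log h) ^ 2 * Lm E ^ 2 := by
  rw [← mul_pow]
  have hE2 : 0 < E' := lt_of_lt_of_le (mul_pos h0 hE) hE'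
  exact pow_le_pow_left₀ (by linarith [Lm_pos hE2]) (Lm_le hE h0 h1 hE') 2

/-- a change of the fugacity -/
theorem tm_tilt {z : ℝ} (hz : 0 < z) {t B : ℝ} {Q Q' : ∀ n : ℕ, (ZMod (2 * n) → ℤ × ℤ) → Prop}
    (h : ∀ n, 2 ≤ n → ∀ f, IsLoop (2 * n) f → Q n f → Q' n f ∧ -(2 * (n * t)) ≤ B) (k : ℕ) :
    tm z Q k ≤ Real.exp B * tm (z * Real.exp t) Q' k := by
  have hz' : 0 < z * Real.exp t := mul_pos hz (Real.exp_pos _)
  rcases (PQ Q (k + 2)).eq_empty_or_nonempty with he | ⟨f, hf1, hf2⟩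
  · have : tm z Q k = 0 := by
      unfold tm
      rw [he]
      simp
    rw [this]
    exact mul_nonneg (Real.exp_pos _).le (tm_nonneg hz' _ _)
  · obtain ⟨-, hB⟩ := h _ (by omega) f hf1 hf2
    have h1 := tm_mono hz (Q := Q) (Q' := Q') (fun n hn f hf hq => (h n hn f hf hq).1) k
    refine h1.trans ?_
    have h2 : z ^ (2 * (k + 2)) ≤ Real.exp B * (z * Real.exp t) ^ (2 * (k + 2)) := by
      rw [mul_pow, ← Real.exp_nat_mul, mul_comm (z ^ _), ← mul_assoc, ← Real.exp_add]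
      have h3 : 1 ≤ Real.exp (B + ((2 * (k + 2) : ℕ) : ℝ) * t) := by
        apply Real.one_le_exp
        push_cast at hB ⊢
        linarith
      have h4 := mul_le_mul_of_nonneg_right h3 (pow_pos hz (2 * (k + 2))).le
      linarith
    unfold tm
    rw [← mul_div_assoc, ← mul_assoc]
    gcongr

theorem Zs_tilt {z : ℝ} (hz : 0 < z) {t B : ℝ} {Q Q' : ∀ n : ℕ, (ZMod (2 * n) → ℤ × ℤ) → Prop}
    (h : ∀ n, 2 ≤ n → ∀ f, IsLoop (2 * n) f → Q n f → Q' n f ∧ -(2 * (n * t)) ≤ B)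
    (hs : Summable (tm (z * Real.exp t) Q')) :
    Summable (tm z Q) ∧ Zs z Q ≤ Real.exp B * Zs (z * Real.exp t) Q' := by
  have hs' := hs.mul_left (Real.exp B)
  have h1 : Summable (tm z Q) := Summable.of_nonneg_of_le (tm_nonneg hz Q) (tm_tilt hz h) hs'
  refine ⟨h1, ?_⟩
  unfold Zs
  rw [← tsum_mul_left]
  exact h1.tsum_le_tsum (tm_tilt hz h) hs'

theorem log_tilt {z : ℝ} (hz : 0 < z) (t : ℝ) :
    -Real.log (z * Real.exp t * mu) = -Real.log (z * mu) - t := by
  have e : z * Real.exp t * mu = z * mu * Real.exp t := by ring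
  rw [e, Real.log_mul (mul_pos hz mu_pos).ne' (Real.exp_ne_zero _), Real.log_exp]
  ring

theorem g_up2 {E h : ℝ} (hE : 0 < E) (h0 : 0 ≤ h) (h1 : h ≤ 1) : g ((1 + h) * E) ≤ 2 * g E := by
  have hh : 0 < 1 + h := by linarith
  have hF : 0 < (1 + h) * E := mul_pos hh hE
  have h2 := g_down hF (e := h / (1 + h)) (by positivity) (by rw [div_lt_one hh]; linarith)
  have e1 : 1 - h / (1 + h) = 1 / (1 + h) := by field_simp; ring
  have e2 : 1 / (1 + h) * ((1 + h) * E) = E := by field_simp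
  rw [e1, e2, div_mul_eq_mul_div, one_mul, div_le_iff₀ hh] at h2
  have hg := g_nonneg' E
  have h3 := mul_le_mul_of_nonneg_left (show 1 + h ≤ 2 by linarith) hg
  linarith
where
  g_nonneg' (E : ℝ) : 0 ≤ g E := WF.g_nonneg E

/-- polygons whose perimeter is too long -/
def Lng (s E h δ : ℝ) : ∀ n : ℕ, (ZMod (2 * n) → ℤ × ℤ) → Prop := fun n f =>
  s ^ 2 ≤ (area (2 * n) f : ℝ) ∧ s * ((g E - g ((1 - h) * E)) / h + δ * g E) ≤ n * E

/-- polygons whose perimeter is too short -/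
def Sht (s E h δ : ℝ) : ∀ n : ℕ, (ZMod (2 * n) → ℤ × ℤ) → Prop := fun n f =>
  s ^ 2 ≤ (area (2 * n) f : ℝ) ∧ n * E ≤ s * ((g ((1 + h) * E) - g E) / h - δ * g E)

theorem Z_per {δ h : ℝ} (hδ : 0 < δ) (h0 : 0 < h) (h1 : h < 1) {ε : ℝ} (hε : 0 < ε)
    (hε1 : ε < 1) : ∃ C : ℝ, 0 < C ∧
    ∀ z : ℝ, 0 < z → 0 < -Real.log (z * mu) → ∀ s : ℝ, 0 < s →
      Zs z (Lng s (-Real.log (z * mu)) h δ) ≤ Real.exp (C * Lm (-Real.log (z * mu)) ^ 2 -
        2 * (1 + δ * h - 2 * ε) * (s * g (-Real.log (z * mu)))) ∧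
      Zs z (Sht s (-Real.log (z * mu)) h δ) ≤ Real.exp (C * Lm (-Real.log (z * mu)) ^ 2 -
        2 * (1 + δ * h - 2 * ε) * (s * g (-Real.log (z * mu)))) := by
  obtain ⟨C1, hC1, hup⟩ := Z_up hε hε1
  obtain ⟨K, hK⟩ : ∃ K, K = (1 + 2 * -Real.log (1 - h)) ^ 2 := ⟨_, rfl⟩
  have hlog : Real.log (1 - h) ≤ 0 := Real.log_nonpos (by linarith) (by linarith)
  have hK0 : 1 ≤ K := by
    rw [hK]
    exact one_le_pow₀ (by linarith)
  refine ⟨C1 * K, by positivity, ?_⟩
  intro z hz hE s hs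
  obtain ⟨E, hEd⟩ : ∃ E, E = -Real.log (z * mu) := ⟨_, rfl⟩
  rw [← hEd] at hE ⊢
  have hg := g_pos hE
  constructor
  · have hE' : 0 < (1 - h) * E := mul_pos (by linarith) hE
    have e1 : -Real.log (z * Real.exp (h * E) * mu) = (1 - h) * E := by
      rw [log_tilt hz, ← hEd]
      ring
    have hz' : 0 < z * Real.exp (h * E) := mul_pos hz (Real.exp_pos _)
    obtain ⟨u1, u2⟩ := hup _ hz' (by rw [e1]; exact hE') s hs
    rw [e1] at u2
    have hgu := g_up hE h0.le h1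
    have hLL := Lm_sq_le hE (show 0 < 1 - h by linarith) (by linarith) (le_refl ((1 - h) * E))
    obtain ⟨-, v2⟩ := Zs_tilt hz (t := h * E)
      (B := -(2 * (s * (g E - g ((1 - h) * E) + δ * h * g E))))
      (Q := Lng s E h δ) (Q' := Ar (s ^ 2)) (fun n hn f hf hq => by
        refine ⟨hq.1, ?_⟩
        have h2 := mul_le_mul_of_nonneg_left hq.2 h0.le
        have e : h * (s * ((g E - g ((1 - h) * E)) / h + δ * g E)) =
            s * (g E - g ((1 - h) * E) + δ * h * g E) := by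
          field_simp
        rw [e] at h2
        linarith) u1
    refine v2.trans ((mul_le_mul_of_nonneg_left u2 (Real.exp_pos _).le).trans ?_)
    rw [← Real.exp_add]
    apply Real.exp_le_exp.2
    rw [← hK] at hLL
    have a1 := mul_le_mul_of_nonneg_left hLL hC1.le
    have a2 : ε * (s * g ((1 - h) * E)) ≤ ε * (s * g E) :=
      mul_le_mul_of_nonneg_left (mul_le_mul_of_nonneg_left hgu hs.le) hε.le
    have a3 : 0 ≤ ε * (s * g E) := by positivity
    have e2 : -(2 * (s * (g E - g ((1 - h) * E) + δ * h * g E))) +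
        (C1 * Lm ((1 - h) * E) ^ 2 - 2 * (1 - ε) * (s * g ((1 - h) * E))) =
        C1 * Lm ((1 - h) * E) ^ 2 - 2 * (1 + δ * h) * (s * g E) +
          2 * (ε * (s * g ((1 - h) * E))) := by ring
    have e3 : C1 * K * Lm E ^ 2 - 2 * (1 + δ * h - 2 * ε) * (s * g E) =
        C1 * (K * Lm E ^ 2) - 2 * (1 + δ * h) * (s * g E) + 4 * (ε * (s * g E)) := by ring
    rw [e2, e3]
    linarith
  · have hE' : 0 < (1 + h) * E := mul_pos (by linarith) hE
    have e1 : -Real.log (z * Real.exp (-(h * E)) * mu) = (1 + h) * E := by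
      rw [log_tilt hz, ← hEd]
      ring
    have hz' : 0 < z * Real.exp (-(h * E)) := mul_pos hz (Real.exp_pos _)
    obtain ⟨u1, u2⟩ := hup _ hz' (by rw [e1]; exact hE') s hs
    rw [e1] at u2
    have hgu := g_up2 hE h0.le h1.le
    have hLL := Lm_sq_le hE (show 0 < 1 - h by linarith) (by linarith)
      (show (1 - h) * E ≤ (1 + h) * E by
        apply mul_le_mul_of_nonneg_right _ hE.le
        linarith)
    obtain ⟨-, v2⟩ := Zs_tilt hz (t := -(h * E))
      (B := 2 * (s * (g ((1 + h) * E) - g E - δ * h * g E)))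
      (Q := Sht s E h δ) (Q' := Ar (s ^ 2)) (fun n hn f hf hq => by
        refine ⟨hq.1, ?_⟩
        have h2 := mul_le_mul_of_nonneg_left hq.2 h0.le
        have e : h * (s * ((g ((1 + h) * E) - g E) / h - δ * g E)) =
            s * (g ((1 + h) * E) - g E - δ * h * g E) := by
          field_simp
        rw [e] at h2
        linarith) u1
    refine v2.trans ((mul_le_mul_of_nonneg_left u2 (Real.exp_pos _).le).trans ?_)
    rw [← Real.exp_add]
    apply Real.exp_le_exp.2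
    rw [← hK] at hLL
    have a1 := mul_le_mul_of_nonneg_left hLL hC1.le
    have a2 : ε * (s * g ((1 + h) * E)) ≤ ε * (s * (2 * g E)) :=
      mul_le_mul_of_nonneg_left (mul_le_mul_of_nonneg_left hgu hs.le) hε.le
    have e2 : 2 * (s * (g ((1 + h) * E) - g E - δ * h * g E)) +
        (C1 * Lm ((1 + h) * E) ^ 2 - 2 * (1 - ε) * (s * g ((1 + h) * E))) =
        C1 * Lm ((1 + h) * E) ^ 2 - 2 * (1 + δ * h) * (s * g E) +
          2 * (ε * (s * g ((1 + h) * E))) := by ring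
    have e3 : C1 * K * Lm E ^ 2 - 2 * (1 + δ * h - 2 * ε) * (s * g E) =
        C1 * (K * Lm E ^ 2) - 2 * (1 + δ * h) * (s * g E) + 2 * (ε * (s * (2 * g E))) := by ring
    rw [e2, e3]
    linarith

end Pool.Agent.H26.GC
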