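import Pool.Agent.H26.UN.Cnd2

/-!
The Wulff shapes for neighbouring energies.
-/

set_option autoImplicit false

open MeasureTheory Set Filter Topology Metric
open scoped ENNReal Pointwise

namespace Pool.Agent.H26.GC

open Pool.Agent.T6.H44 Pool.Agent.T6.H44.PG
open Pool.Agent.Y981.L2 H981 Pool.Agent.H26.WS Pool.Agent.H26.UN
open Pool.Agent.H26.WF (Kc V g rho pr RR)

theorem Kc_mono {E F : ℝ} (h : E ≤ F) : Kc E ⊆ Kc F := fun x hx => le_trans hx h

theorem Kc_shrink {E e : ℝ} (he0 : 0 ≤ e) (he1 : e ≤ 1) : (1 - e) • Kc E ⊆ Kc ((1 - e) * E) := by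
  have h := WF.Kc_combo (E := E) (F := 0) (show 0 ≤ 1 - e by linarith) he0 (by ring)
  intro x hx
  have h0 : (0 : ℝ × ℝ) ∈ Kc 0 := by
    show Lam (0, 0) ≤ 0
    rw [Y981.L2X.Lam_zero]
  have h1 : x ∈ (1 - e) • Kc E + e • Kc 0 := ⟨x, hx, 0, ⟨0, h0, by simp⟩, by simp⟩
  have h2 := h h1
  rwa [mul_zero, add_zero] at h2

theorem g_up {E e : ℝ} (hE : 0 < E) (he0 : 0 ≤ e) (he1 : e < 1) : g ((1 - e) * E) ≤ g E := by
  unfold g
  apply Real.sqrt_le_sqrt
  unfold V
  apply measureReal_mono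
  · apply Kc_mono
    have := mul_nonneg he0 hE.le
    linarith
  · exact (WF.Kc_props hE).2.1.measure_lt_top.ne

theorem g_down {E e : ℝ} (hE : 0 < E) (he0 : 0 ≤ e) (he1 : e < 1) :
    (1 - e) * g E ≤ g ((1 - e) * E) := by
  have hE' : 0 < (1 - e) * E := mul_pos (by linarith) hE
  have h1 : volume.real ((1 - e) • Kc E) ≤ V ((1 - e) * E) :=
    measureReal_mono (Kc_shrink he0 he1.le) (WF.Kc_props hE').2.1.measure_lt_top.ne
  rw [vol_smul] at h1
  have h2 : ((1 - e) * g E) ^ 2 ≤ V ((1 - e) * E) := by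
    rw [mul_pow, g_sq]
    exact h1
  exact Real.le_sqrt_of_sq_le h2

theorem UE_shrink {E e : ℝ} (hE : 0 < E) (he0 : 0 ≤ e) (he1 : e < 1) :
    hausdorffDist (UE ((1 - e) * E)) ((fun x => x + (0 : ℝ × ℝ)) '' UE E) ≤ e := by
  have hE' : 0 < (1 - e) * E := mul_pos (by linarith) hE
  have hg := g_pos hE
  have hg' := g_pos hE'
  have h1 := g_up hE he0 he1
  have h2 := g_down hE he0 he1
  have e0 : (fun x => x + (0 : ℝ × ℝ)) '' UE E = UE E := by simp
  rw [e0]
  apply hausdorffDist_le_of_mem_dist he0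
  · intro x hx
    have hx1 : ‖x‖ ≤ 1 := mem_closedBall_zero_iff.1 ((UE_cl hE').2.2.2.2.2 hx)
    obtain ⟨k, hk, rfl⟩ := hx
    have hk' : k ∈ Kc E := Kc_mono (by
      have := mul_nonneg he0 hE.le
      linarith) hk
    refine ⟨(1 / g E) • k, ⟨k, hk', rfl⟩, ?_⟩
    simp only at hx1 ⊢
    rw [dist_eq_norm, ← sub_smul]
    rw [norm_smul, Real.norm_eq_abs] at hx1 ⊢
    have e1 : (1 / g ((1 - e) * E) - 1 / g E) =
        (1 / g ((1 - e) * E)) * (1 - g ((1 - e) * E) / g E) := by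
      field_simp
    rw [e1, abs_mul]
    have h3 : |1 - g ((1 - e) * E) / g E| ≤ e := by
      rw [abs_of_nonneg]
      · have : 1 - e ≤ g ((1 - e) * E) / g E := by rwa [le_div_iff₀ hg]
        linarith
      · have : g ((1 - e) * E) / g E ≤ 1 := by rwa [div_le_one hg]
        linarith
    calc |1 / g ((1 - e) * E)| * |1 - g ((1 - e) * E) / g E| * ‖k‖ =
        |1 - g ((1 - e) * E) / g E| * (|1 / g ((1 - e) * E)| * ‖k‖) := by ring
      _ ≤ e * 1 := mul_le_mul h3 hx1 (by positivity) he0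
      _ = e := mul_one e
  · intro y hy
    have hy1 : ‖y‖ ≤ 1 := mem_closedBall_zero_iff.1 ((UE_cl hE).2.2.2.2.2 hy)
    obtain ⟨k, hk, rfl⟩ := hy
    have hk' : (1 - e) • k ∈ Kc ((1 - e) * E) := Kc_shrink he0 he1.le ⟨k, hk, rfl⟩
    refine ⟨(1 / g ((1 - e) * E)) • ((1 - e) • k), ⟨_, hk', rfl⟩, ?_⟩
    simp only at hy1 ⊢
    rw [smul_smul, dist_eq_norm, ← sub_smul]
    rw [norm_smul, Real.norm_eq_abs] at hy1 ⊢
    have e1 : (1 / g E - 1 / g ((1 - e) * E) * (1 - e)) =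
        (1 / g E) * (1 - (1 - e) * g E / g ((1 - e) * E)) := by
      field_simp
    rw [e1, abs_mul]
    have h3 : |1 - (1 - e) * g E / g ((1 - e) * E)| ≤ e := by
      rw [abs_of_nonneg]
      · have : 1 - e ≤ (1 - e) * g E / g ((1 - e) * E) := by
          rw [le_div_iff₀ hg']
          exact mul_le_mul_of_nonneg_left h1 (by linarith)
        linarith
      · have : (1 - e) * g E / g ((1 - e) * E) ≤ 1 := by rwa [div_le_one hg']
        linarith
    calc |1 / g E| * |1 - (1 - e) * g E / g ((1 - e) * E)| * ‖k‖ =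
        |1 - (1 - e) * g E / g ((1 - e) * E)| * (|1 / g E| * ‖k‖) := by ring
      _ ≤ e * 1 := mul_le_mul h3 hy1 (by positivity) he0
      _ = e := mul_one e

end Pool.Agent.H26.GC
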