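import Mathlib

/-!
Sums over all perimeters: a squared logarithm against an exponential.
-/

set_option autoImplicit false

open Filter Topology

namespace Pool.Agent.H26.GC

/-- the logarithmic error at distance `E` -/
noncomputable def Lm (E : ℝ) : ℝ := Real.log (2 + 1 / E)

theorem Lm_ge {E : ℝ} (hE : 0 < E) : Real.log 2 ≤ Lm E := by
  unfold Lm
  apply Real.log_le_log (by norm_num)
  have : 0 < 1 / E := by positivity
  linarith

theorem Lm_pos {E : ℝ} (hE : 0 < E) : 0.69 ≤ Lm E := by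
  have := Lm_ge hE
  have := Real.log_two_gt_d9
  linarith

theorem Lm_sq {E : ℝ} (hE : 0 < E) : 0.47 ≤ Lm E ^ 2 := by
  have h := pow_le_pow_left₀ (by norm_num) (Lm_pos hE) 2
  norm_num at h ⊢
  linarith

theorem log_sq_lin : ∃ C : ℝ, 0 ≤ C ∧ ∀ y : ℝ, 1 ≤ y → Real.log y ^ 2 ≤ C + y := by
  refine ⟨4, by norm_num, ?_⟩
  intro y hy
  have hy0 : 0 < y := by linarith
  have h1 : Real.log y ≤ y ^ (1 / 2 : ℝ) / (1 / 2) := Real.log_le_rpow_div hy0.le (by norm_num)
  have h0 := Real.log_nonneg hy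
  -- log y = 4 log (y^(1/4))
  have h2 : Real.log y ≤ 4 * (y ^ (1 / 4 : ℝ) - 1) := by
    have h3 := Real.log_le_sub_one_of_pos (show 0 < y ^ (1 / 4 : ℝ) by positivity)
    rw [Real.log_rpow hy0] at h3
    linarith
  obtain ⟨t, ht⟩ : ∃ t, t = y ^ (1 / 4 : ℝ) := ⟨_, rfl⟩
  have ht4 : t ^ 4 = y := by
    rw [ht, ← Real.rpow_natCast, ← Real.rpow_mul hy0.le]
    norm_num
  have ht1 : 1 ≤ t := by rw [ht]; exact Real.one_le_rpow hy (by norm_num)
  rw [← ht] at h2
  have h4 : Real.log y ^ 2 ≤ (4 * (t - 1)) ^ 2 := pow_le_pow_left₀ h0 h2 2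
  refine h4.trans ?_
  rw [← ht4]
  nlinarith [sq_nonneg (t ^ 2 - 8), sq_nonneg (t - 1), sq_nonneg (t ^ 2 - 4 * t + 4),
    sq_nonneg (t - 2), mul_nonneg (sq_nonneg (t - 2)) (sq_nonneg (t + 2))]

theorem log_sq_eps {η y : ℝ} (hη : 0 < η) (hy : 1 ≤ y) :
    Real.log y ^ 2 ≤ 8 + 2 * Real.log η ^ 2 + 2 * (η * y) := by
  obtain ⟨C, hC, h⟩ := log_sq_lin
  have hy0 : 0 < y := by linarith
  have h0 := Real.log_nonneg hy
  have h4 : ∀ x : ℝ, 1 ≤ x → Real.log x ^ 2 ≤ 4 + x := by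
    intro x hx
    have hx0 : 0 < x := by linarith
    have h0 := Real.log_nonneg hx
    have h2 : Real.log x ≤ 4 * (x ^ (1 / 4 : ℝ) - 1) := by
      have h3 := Real.log_le_sub_one_of_pos (show 0 < x ^ (1 / 4 : ℝ) by positivity)
      rw [Real.log_rpow hx0] at h3
      linarith
    obtain ⟨t, ht⟩ : ∃ t, t = x ^ (1 / 4 : ℝ) := ⟨_, rfl⟩
    have ht4 : t ^ 4 = x := by
      rw [ht, ← Real.rpow_natCast, ← Real.rpow_mul hx0.le]
      norm_num
    have ht1 : 1 ≤ t := by rw [ht]; exact Real.one_le_rpow hx (by norm_num)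
    rw [← ht] at h2
    have h4 : Real.log x ^ 2 ≤ (4 * (t - 1)) ^ 2 := pow_le_pow_left₀ h0 h2 2
    refine h4.trans ?_
    rw [← ht4]
    nlinarith [sq_nonneg (t ^ 2 - 8), sq_nonneg (t - 1), sq_nonneg (t ^ 2 - 4 * t + 4),
      sq_nonneg (t - 2), mul_nonneg (sq_nonneg (t - 2)) (sq_nonneg (t + 2))]
  rcases le_or_gt 1 (η * y) with h1 | h1
  · have h2 := h4 (η * y) h1
    have e : Real.log y = Real.log (η * y) - Real.log η := by
      rw [Real.log_mul hη.ne' hy0.ne']
      ring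
    have h3 : Real.log y ^ 2 ≤ 2 * Real.log (η * y) ^ 2 + 2 * Real.log η ^ 2 := by
      rw [e]
      have := sq_nonneg (Real.log (η * y) + Real.log η)
      linarith [show (Real.log (η * y) - Real.log η) ^ 2 + (Real.log (η * y) + Real.log η) ^ 2 =
        2 * Real.log (η * y) ^ 2 + 2 * Real.log η ^ 2 by ring]
    linarith
  · have h2 : y ≤ 1 / η := by
      rw [le_div_iff₀ hη]
      linarith
    have h3 : Real.log y ≤ -Real.log η := by
      have := Real.log_le_log hy0 h2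
      rwa [one_div, Real.log_inv] at this
    have h5 : Real.log y ^ 2 ≤ (-Real.log η) ^ 2 := pow_le_pow_left₀ h0 h3 2
    have h6 : 0 ≤ η * y := by positivity
    have h7 := sq_nonneg (Real.log η)
    have h8 : (-Real.log η) ^ 2 = Real.log η ^ 2 := by ring
    rw [h8] at h5
    linarith

theorem EM {E : ℝ} (hE : 0 < E) : 4 ≤ E * (2 + 1 / E) ^ 2 := by
  have e : E * (2 + 1 / E) ^ 2 = 4 * E + 4 + 1 / E := by
    field_simp
    ring
  rw [e]
  have : 0 < 1 / E := by positivity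
  linarith

/-- **the squared logarithm of the perimeter is absorbed** -/
theorem klog {K θ : ℝ} (hK : 0 ≤ K) (hθ : 0 < θ) : ∃ C : ℝ, 0 < C ∧ ∀ E : ℝ, 0 < E → ∀ n : ℕ,
    K * Real.log n ^ 2 ≤ θ * (n * E) + C * Lm E ^ 2 := by
  obtain ⟨η, hη⟩ : ∃ η, η = θ / (K + 1) := ⟨_, rfl⟩
  have hη0 : 0 < η := by rw [hη]; positivity
  have hηK : K * η ≤ θ := by
    rw [hη, mul_div_assoc', div_le_iff₀ (by positivity)]
    have := mul_nonneg hK hθ.le
    linarith
  obtain ⟨B, hB⟩ : ∃ B, B = 8 + 2 * Real.log η ^ 2 := ⟨_, rfl⟩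
  have hB0 : 0 < B := by rw [hB]; positivity
  refine ⟨8 * K + 6 * K * B + 1, by positivity, ?_⟩
  intro E hE n
  have hL := Lm_sq hE
  have hL0 : 0 ≤ Lm E ^ 2 := sq_nonneg _
  have hKB : K * B ≤ 3 * K * B * Lm E ^ 2 := by
    have h1 : 0 ≤ K * B := by positivity
    have h2 := mul_le_mul_of_nonneg_left hL (show 0 ≤ 3 * (K * B) by positivity)
    linarith
  have hKL : 0 ≤ K * Lm E ^ 2 := by positivity
  have hKBL : 0 ≤ K * B * Lm E ^ 2 := by positivity
  rcases Nat.eq_zero_or_pos n with hn | hn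
  · subst hn
    simp only [Nat.cast_zero, Real.log_zero, zero_mul, mul_zero, zero_add]
    rw [zero_pow (by norm_num), mul_zero]
    positivity
  · have hn1 : (1 : ℝ) ≤ n := by exact_mod_cast hn
    have hn0 : (0 : ℝ) < n := by linarith
    have hlog := Real.log_nonneg hn1
    obtain ⟨M, hM⟩ : ∃ M, M = 2 + 1 / E := ⟨_, rfl⟩
    have hM0 : 0 < M := by rw [hM]; positivity
    have hLM : Lm E = Real.log M := by rw [hM]; rfl
    have hEM : 4 ≤ E * M ^ 2 := by rw [hM]; exact EM hE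
    have hθ0 : 0 ≤ θ * (n * E) := by positivity
    rcases le_or_gt (M ^ 2) (n : ℝ) with h | h
    · obtain ⟨y, hy⟩ : ∃ y : ℝ, y = n / M ^ 2 := ⟨_, rfl⟩
      have hM2 : 0 < M ^ 2 := by positivity
      have hy1 : 1 ≤ y := by rw [hy, one_le_div hM2]; exact h
      have hny : (n : ℝ) = y * M ^ 2 := by rw [hy]; field_simp
      have h1 := log_sq_eps hη0 hy1
      rw [← hB] at h1
      have h2 : Real.log n = Real.log y + 2 * Lm E := by
        rw [hny, Real.log_mul (by linarith) hM2.ne', Real.log_pow, hLM]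
        push_cast
        ring
      have h3 : Real.log n ^ 2 ≤ 2 * Real.log y ^ 2 + 8 * Lm E ^ 2 := by
        rw [h2]
        have := sq_nonneg (Real.log y - 2 * Lm E)
        linarith [show (Real.log y + 2 * Lm E) ^ 2 + (Real.log y - 2 * Lm E) ^ 2 =
          2 * Real.log y ^ 2 + 8 * Lm E ^ 2 by ring]
      have h4 := mul_le_mul_of_nonneg_left h3 hK
      have h5 := mul_le_mul_of_nonneg_left h1 (show 0 ≤ 2 * K by positivity)
      have h6 : 4 * (K * η * y) ≤ θ * (n * E) := by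
        have a1 : K * η * y ≤ θ * y := mul_le_mul_of_nonneg_right hηK (by linarith)
        have a2 : θ * y * 4 ≤ θ * y * (E * M ^ 2) :=
          mul_le_mul_of_nonneg_left hEM (by positivity)
        have a3 : θ * (n * E) = θ * y * (E * M ^ 2) := by rw [hny]; ring
        linarith
      have e1 : 2 * K * (B + 2 * (η * y)) = 2 * (K * B) + 4 * (K * η * y) := by ring
      rw [e1] at h5
      have e2 : (8 * K + 6 * K * B + 1) * Lm E ^ 2 = 8 * (K * Lm E ^ 2) +
        2 * (3 * K * B * Lm E ^ 2) + Lm E ^ 2 := by ring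
      rw [e2]
      linarith
    · have h1 : Real.log n ≤ 2 * Lm E := by
        have := Real.log_le_log hn0 h.le
        rw [Real.log_pow, ← hLM] at this
        push_cast at this
        exact this
      have h2 : Real.log n ^ 2 ≤ (2 * Lm E) ^ 2 := pow_le_pow_left₀ hlog h1 2
      have h3 := mul_le_mul_of_nonneg_left h2 hK
      have e2 : (8 * K + 6 * K * B + 1) * Lm E ^ 2 = 8 * (K * Lm E ^ 2) +
        6 * (K * B * Lm E ^ 2) + Lm E ^ 2 := by ring
      have e3 : K * (2 * Lm E) ^ 2 = 4 * (K * Lm E ^ 2) := by ring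
      rw [e3] at h3
      rw [e2]
      linarith

theorem geo {t : ℝ} (ht : 0 < t) : Summable (fun n : ℕ => Real.exp (-(t * n))) ∧
    ∑' n : ℕ, Real.exp (-(t * n)) ≤ 1 + 1 / t := by
  have h1 : Real.exp (-t) < 1 := by
    rw [← Real.exp_zero]
    exact Real.exp_lt_exp.2 (by linarith)
  have e : (fun n : ℕ => Real.exp (-(t * n))) = fun n : ℕ => Real.exp (-t) ^ n := by
    funext n
    rw [← Real.exp_nat_mul]
    congr 1
    ring
  rw [e]
  refine ⟨summable_geometric_of_lt_one (Real.exp_pos _).le h1, ?_⟩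
  rw [tsum_geometric_of_lt_one (Real.exp_pos _).le h1]
  have h2 : 1 + t ≤ Real.exp t := by linarith [Real.add_one_le_exp t]
  have h3 : Real.exp (-t) ≤ 1 / (1 + t) := by
    rw [Real.exp_neg, one_div]
    exact inv_anti₀ (by linarith) h2
  have h4 : t / (1 + t) ≤ 1 - Real.exp (-t) := by
    have : t / (1 + t) = 1 - 1 / (1 + t) := by
      field_simp
      ring
    rw [this]
    linarith
  have h5 : 1 + 1 / t = (t / (1 + t))⁻¹ := by
    field_simp
    ring
  rw [h5]
  exact inv_anti₀ (by positivity) h4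

theorem sum_bd {K θ : ℝ} (hK : 0 ≤ K) (hθ : 0 < θ) : ∃ C : ℝ, 0 < C ∧ ∀ E : ℝ, 0 < E →
    Summable (fun n : ℕ => Real.exp (K * Real.log n ^ 2 - θ * (n * E))) ∧
    ∑' n : ℕ, Real.exp (K * Real.log n ^ 2 - θ * (n * E)) ≤ Real.exp (C * Lm E ^ 2) := by
  obtain ⟨C1, hC1, h1⟩ := klog hK (show 0 < θ / 2 by linarith)
  have hlogθ : 0 ≤ Real.log (1 + 2 / θ) := Real.log_nonneg (by
    have : 0 < 2 / θ := by positivity
    linarith)
  refine ⟨C1 + 3 * Real.log (1 + 2 / θ) + 2, by positivity, ?_⟩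
  intro E hE
  have ht : 0 < θ / 2 * E := by positivity
  obtain ⟨g1, g2⟩ := geo ht
  have hle : ∀ n : ℕ, Real.exp (K * Real.log n ^ 2 - θ * (n * E)) ≤
      Real.exp (C1 * Lm E ^ 2) * Real.exp (-(θ / 2 * E * n)) := by
    intro n
    rw [← Real.exp_add]
    apply Real.exp_le_exp.2
    have := h1 E hE n
    linarith
  have hs : Summable (fun n : ℕ => Real.exp (K * Real.log n ^ 2 - θ * (n * E))) :=
    Summable.of_nonneg_of_le (fun n => (Real.exp_pos _).le) hle (g1.mul_left _)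
  refine ⟨hs, ?_⟩
  refine (hs.tsum_le_tsum hle (g1.mul_left _)).trans ?_
  rw [tsum_mul_left]
  have hL := Lm_sq hE
  have hLp := Lm_pos hE
  have h3 : 1 + 1 / (θ / 2 * E) ≤ Real.exp (Real.log (1 + 2 / θ) + Lm E) := by
    rw [Real.exp_add, Real.exp_log (by positivity)]
    unfold Lm
    rw [Real.exp_log (by positivity)]
    have e : (1 + 2 / θ) * (2 + 1 / E) = 1 + 1 / (θ / 2 * E) + (1 + 1 / E + 4 / θ) := by
      field_simp
      ring
    rw [e]
    have : 0 < 1 + 1 / E + 4 / θ := by positivity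
    linarith
  have h4 : Real.log (1 + 2 / θ) + Lm E ≤ (3 * Real.log (1 + 2 / θ) + 2) * Lm E ^ 2 := by
    have a1 := mul_le_mul_of_nonneg_left hL (show 0 ≤ 3 * Real.log (1 + 2 / θ) by positivity)
    have a2 : Lm E ≤ 2 * Lm E ^ 2 := by
      have : 0.69 * Lm E ≤ Lm E * Lm E := mul_le_mul_of_nonneg_right hLp (by linarith)
      have e : Lm E * Lm E = Lm E ^ 2 := by ring
      rw [e] at this
      linarith
    have e : (3 * Real.log (1 + 2 / θ) + 2) * Lm E ^ 2 =
      3 * Real.log (1 + 2 / θ) * Lm E ^ 2 + 2 * Lm E ^ 2 := by ring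
    rw [e]
    linarith
  calc Real.exp (C1 * Lm E ^ 2) * ∑' n : ℕ, Real.exp (-(θ / 2 * E * n))
      ≤ Real.exp (C1 * Lm E ^ 2) * Real.exp ((3 * Real.log (1 + 2 / θ) + 2) * Lm E ^ 2) := by
        apply mul_le_mul_of_nonneg_left _ (Real.exp_pos _).le
        exact g2.trans (h3.trans (Real.exp_le_exp.2 h4))
    _ = _ := by
        rw [← Real.exp_add]
        congr 1
        ring

end Pool.Agent.H26.GC
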