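import Pool.Agent.H26.GC.Sum
import Pool.Agent.H26.GC.Shrink
import Pool.Agent.H26.UN.Unif

/-!
The polygons weighted by a fugacity: upper bounds.
-/

set_option autoImplicit false

open MeasureTheory Set Filter Topology Metric
open scoped ENNReal Pointwise

namespace Pool.Agent.H26.GC

open Pool.Agent.T6.H44 Pool.Agent.T6.H44.PG
open Pool.Agent.TH795.EP2 (q)
open Pool.Agent.Y981.L2 H981 Pool.Agent.H26.WS Pool.Agent.H26.UN
open Pool.Agent.H26.WF (Kc V g rho pr RR)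

/-- the polygons of perimeter `2 n` with the property `Q` -/
def PQ (Q : ∀ n : ℕ, (ZMod (2 * n) → ℤ × ℤ) → Prop) (n : ℕ) : Set (ZMod (2 * n) → ℤ × ℤ) :=
  {f | IsLoop (2 * n) f ∧ Q n f}

/-- the term of the sum over the perimeters -/
noncomputable def tm (z : ℝ) (Q : ∀ n : ℕ, (ZMod (2 * n) → ℤ × ℤ) → Prop) (k : ℕ) : ℝ :=
  z ^ (2 * (k + 2)) * ((PQ Q (k + 2)).ncard : ℝ) / (4 * ((k + 2 : ℕ) : ℝ))

/-- the weighted number of the polygons (up to translation) with the property `Q` -/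
noncomputable def Zs (z : ℝ) (Q : ∀ n : ℕ, (ZMod (2 * n) → ℤ × ℤ) → Prop) : ℝ :=
  ∑' k : ℕ, tm z Q k

theorem tm_nonneg {z : ℝ} (hz : 0 < z) (Q : ∀ n : ℕ, (ZMod (2 * n) → ℤ × ℤ) → Prop) (k : ℕ) :
    0 ≤ tm z Q k := by
  unfold tm
  positivity

theorem zpow {z : ℝ} (hz : 0 < z) (n : ℕ) :
    z ^ (2 * n) * mu ^ (2 * n) = Real.exp (-(2 * (n * -Real.log (z * mu)))) := by
  have hmu := mu_pos
  rw [← mul_pow, ← Real.exp_log (mul_pos hz hmu), ← Real.exp_nat_mul, Real.log_exp]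
  congr 1
  push_cast
  ring

theorem tm_le {z : ℝ} (hz : 0 < z) {Q : ∀ n : ℕ, (ZMod (2 * n) → ℤ × ℤ) → Prop} {k : ℕ} {B : ℝ}
    (h : ((PQ Q (k + 2)).ncard : ℝ) ≤ Real.exp B * mu ^ (2 * (k + 2))) :
    tm z Q k ≤ Real.exp (B - 2 * (((k + 2 : ℕ) : ℝ) * -Real.log (z * mu))) := by
  have hz2 : 0 < z ^ (2 * (k + 2)) := pow_pos hz _
  have h1 : z ^ (2 * (k + 2)) * ((PQ Q (k + 2)).ncard : ℝ) ≤
      Real.exp (B - 2 * (((k + 2 : ℕ) : ℝ) * -Real.log (z * mu))) := by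
    refine (mul_le_mul_of_nonneg_left h hz2.le).trans (le_of_eq ?_)
    rw [← mul_assoc, mul_comm (z ^ _), mul_assoc, zpow hz, ← Real.exp_add]
    congr 1
  unfold tm
  refine (div_le_self (by positivity) ?_).trans h1
  have : (0 : ℝ) ≤ k := Nat.cast_nonneg k
  push_cast
  linarith

/-- **sums over the perimeters** -/
theorem Zs_le {K e : ℝ} (hK : 0 ≤ K) (he : 0 < e) : ∃ C : ℝ, 0 < C ∧ ∀ z : ℝ, 0 < z →
    0 < -Real.log (z * mu) → ∀ (T : ℝ) (Q : ∀ n : ℕ, (ZMod (2 * n) → ℤ × ℤ) → Prop),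
    (∀ n : ℕ, 2 ≤ n → ((PQ Q n).ncard : ℝ) ≤
      Real.exp (K * Real.log n ^ 2 + 2 * (n * ((1 - e) * -Real.log (z * mu))) - T) *
        mu ^ (2 * n)) →
    Summable (tm z Q) ∧ Zs z Q ≤ Real.exp (C * Lm (-Real.log (z * mu)) ^ 2 - T) := by
  obtain ⟨C, hC, h⟩ := sum_bd hK (show 0 < 2 * e by positivity)
  refine ⟨C, hC, ?_⟩
  intro z hz hE T Q hQ
  obtain ⟨E, hEd⟩ : ∃ E, E = -Real.log (z * mu) := ⟨_, rfl⟩
  rw [← hEd] at hE hQ ⊢
  obtain ⟨h1, h2⟩ := h E hE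
  obtain ⟨G, hG⟩ : ∃ G : ℕ → ℝ, G = fun n : ℕ => Real.exp (K * Real.log n ^ 2 - 2 * e * (n * E)) :=
    ⟨_, rfl⟩
  rw [← hG] at h1 h2
  have hG0 : ∀ n, 0 ≤ G n := fun n => by rw [hG]; exact (Real.exp_pos _).le
  have hle : ∀ k, tm z Q k ≤ Real.exp (-T) * G (k + 2) := by
    intro k
    refine (tm_le hz (hQ (k + 2) (by omega))).trans (le_of_eq ?_)
    rw [hG, ← Real.exp_add, ← hEd]
    congr 1
    ring
  have hs2 : Summable (fun k => G (k + 2)) := (summable_nat_add_iff 2).2 h1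
  have hs : Summable (tm z Q) :=
    Summable.of_nonneg_of_le (tm_nonneg hz Q) hle (hs2.mul_left _)
  refine ⟨hs, ?_⟩
  unfold Zs
  refine (hs.tsum_le_tsum hle (hs2.mul_left _)).trans ?_
  rw [tsum_mul_left]
  have h3 : ∑' k, G (k + 2) ≤ ∑' n, G n := by
    have h4 := h1.sum_add_tsum_nat_add 2
    have h5 : 0 ≤ ∑ i ∈ Finset.range 2, G i := Finset.sum_nonneg fun i _ => hG0 i
    linarith
  calc Real.exp (-T) * ∑' k, G (k + 2) ≤ Real.exp (-T) * Real.exp (C * Lm E ^ 2) :=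
        mul_le_mul_of_nonneg_left (h3.trans h2) (Real.exp_pos _).le
    _ = _ := by
        rw [← Real.exp_add]
        congr 1
        ring

/-- the polygons with area at least `A` -/
def Ar (A : ℝ) : ∀ n : ℕ, (ZMod (2 * n) → ℤ × ℤ) → Prop := fun n f => A ≤ (area (2 * n) f : ℝ)

theorem card_Ar {n : ℕ} (hn : 2 ≤ n) (A : ℝ) : ((PQ (Ar A) n).ncard : ℝ) = par n A * ln n := by
  obtain ⟨K, -, h⟩ := Y981.L2.ln_le
  have hln := (h n hn).1
  have e2 : (ln n : ℝ) = ({f : ZMod (2 * n) → ℤ × ℤ | IsLoop (2 * n) f}.ncard : ℝ) := rfl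
  unfold par
  rw [e2] at hln ⊢
  rw [div_mul_cancel₀ _ hln.ne']
  rfl

/-- **upper bound** -/
theorem Z_up {ε : ℝ} (hε : 0 < ε) (hε1 : ε < 1) : ∃ C : ℝ, 0 < C ∧ ∀ z : ℝ, 0 < z →
    0 < -Real.log (z * mu) → ∀ s : ℝ, 0 < s → Summable (tm z (Ar (s ^ 2))) ∧
      Zs z (Ar (s ^ 2)) ≤ Real.exp (C * Lm (-Real.log (z * mu)) ^ 2 -
        2 * (1 - ε) * (s * g (-Real.log (z * mu)))) := by
  obtain ⟨e, he⟩ : ∃ e, e = ε / 2 := ⟨_, rfl⟩
  have he0 : 0 < e := by rw [he]; linarith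
  have he1 : e < 1 := by rw [he]; linarith
  obtain ⟨C1, hC1, hup⟩ := unif_up he0 he1
  obtain ⟨K, hK, hln⟩ := Y981.L2.ln_le
  obtain ⟨C, hC, h⟩ := Zs_le (K := C1 + K) (by positivity) he0
  refine ⟨C, hC, ?_⟩
  intro z hz hE s hs
  apply h z hz hE
  intro n hn
  obtain ⟨E, hEd⟩ : ∃ E, E = -Real.log (z * mu) := ⟨_, rfl⟩
  rw [← hEd] at hE ⊢
  have hn1 : 1 ≤ n := by omega
  have hn0 : (0 : ℝ) < n := by exact_mod_cast hn1
  have hmu := mu_pos
  have hg := g_pos hE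
  rcases le_or_gt (s ^ 2) (1 / 4 * (n : ℝ) ^ 2) with h4 | h4
  · rw [card_Ar hn]
    obtain ⟨v, hv⟩ : ∃ v, v = s ^ 2 / (n : ℝ) ^ 2 := ⟨_, rfl⟩
    have hv0 : 0 < v := by rw [hv]; positivity
    have hv4 : v ≤ 1 / 4 := by
      rw [hv, div_le_iff₀ (by positivity)]
      exact h4
    have hvn : v * (n : ℝ) ^ 2 = s ^ 2 := by rw [hv]; field_simp
    have h1 := hup n hn v hv0 hv4
    rw [hvn] at h1
    obtain ⟨w, hw⟩ : ∃ w, w = √((1 - e) * v) := ⟨_, rfl⟩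
    have hw0 : 0 ≤ (1 - e) * v := mul_nonneg (by linarith) hv0.le
    have hw4 : (1 - e) * v ≤ 1 / 4 := by
      have := mul_nonneg he0.le hv0.le
      linarith
    have hws := WF.sqrt_mem ⟨hw0, hw4⟩
    have hE' : 0 < (1 - e) * E := mul_pos (by linarith) hE
    have h2 := WF.le_rho hws.1 hws.2 hE'
    rw [← WF.RR_eq hw0] at h2
    have h3 : n * √((1 - e) * v) = √(1 - e) * s := by
      rw [Real.sqrt_mul (by linarith)]
      have : √v = s / n := by
        rw [hv, Real.sqrt_div (by positivity), Real.sqrt_sq hs.le, Real.sqrt_sq hn0.le]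
      rw [this]
      field_simp
    have h5 : (1 - 2 * e) * (s * g E) ≤ n * (√((1 - e) * v) * g ((1 - e) * E)) := by
      rw [← mul_assoc (n : ℝ), h3]
      have a1 : (1 - e) * g E ≤ g ((1 - e) * E) := g_down hE he0.le he1
      have a2 : 1 - e ≤ √(1 - e) := by
        apply Real.le_sqrt_of_sq_le
        have : (1 - e) * (1 - e) ≤ (1 - e) * 1 :=
          mul_le_mul_of_nonneg_left (by linarith) (by linarith)
        rw [sq]
        linarith
      have a3 : (1 - e) * s * ((1 - e) * g E) ≤ √(1 - e) * s * g ((1 - e) * E) := by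
        apply mul_le_mul (mul_le_mul_of_nonneg_right a2 hs.le) a1
        · exact mul_nonneg (by linarith) hg.le
        · positivity
      have a4 : (1 - e) * s * ((1 - e) * g E) = (1 - 2 * e) * (s * g E) + e ^ 2 * (s * g E) := by
        ring
      have : 0 ≤ e ^ 2 * (s * g E) := by positivity
      linarith
    have h6 := mul_le_mul_of_nonneg_left h2 hn0.le
    obtain ⟨k1, k2⟩ := hln n hn
    have h7 : par n (s ^ 2) * ln n ≤
        Real.exp (-(n * RR ((1 - e) * v)) + C1 * Real.log n ^ 2) * (mu ^ (2 * n) * q n K) :=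
      mul_le_mul h1 k2 k1.le (Real.exp_pos _).le
    refine h7.trans (le_of_eq_of_le ?_ (mul_le_mul_of_nonneg_right (Real.exp_le_exp.2
      (show -(n * RR ((1 - e) * v)) + C1 * Real.log n ^ 2 + K * Real.log n ^ 2 ≤
        (C1 + K) * Real.log n ^ 2 + 2 * (n * ((1 - e) * E)) - 2 * (1 - ε) * (s * g E) by
          have : ε = 2 * e := by rw [he]; ring
          rw [this]
          linarith)) (pow_pos hmu _).le))
    unfold q
    rw [Real.exp_add _ (K * Real.log n ^ 2)]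
    ring
  · have hempty : PQ (Ar (s ^ 2)) n = ∅ := by
      rw [Set.eq_empty_iff_forall_notMem]
      rintro f ⟨hf, hA⟩
      have h1 := WF.area_quarter hn1 hf
      have hA' : s ^ 2 ≤ (area (2 * n) f : ℝ) := hA
      linarith
    rw [hempty, Set.ncard_empty, Nat.cast_zero]
    positivity

end Pool.Agent.H26.GC
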